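import Pool.Agent.H59.Ray.Vec

/-!
# Maps which keep linear independence (MP_934449_co)

`Col φ`: `φ : T4 → T4` keeps and reflects linear independence of families.
Examples: normalisation `nm` (the first nonzero coordinate becomes `1`), invertible linear maps
`lin`, the Frobenius map `fv`.
-/

set_option autoImplicit false

namespace Pool.Agent.H59.Ray



/-- maps which keep and reflect linear independence -/
def Col (φ : T4 → T4) : Prop :=
  ∀ (ι : Type) (x : ι → T4), LinearIndependent F4 (fun i => φ (x i)) ↔ LinearIndependent F4 x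

theorem Col.comp {φ ψ : T4 → T4} (hφ : Col φ) (hψ : Col ψ) :
    Col fun x => ψ (φ x) := fun ι x =>
  (hψ ι fun i => φ (x i)).trans (hφ ι x)

/-- the first coordinate which is not zero (`1` for the zero vector) -/
def lead (x : T4) : F4 :=
  match x.1 with
  | .z => match x.2.1 with
    | .z => match x.2.2.1 with
      | .z => match x.2.2.2 with
        | .z => .o
        | y => y
      | y => y
    | y => y
  | y => y

/-- scalar multiplication -/
def sm (c : F4) (x : T4) : T4 :=
  (F4.mul c x.1, F4.mul c x.2.1, F4.mul c x.2.2.1, F4.mul c x.2.2.2)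

theorem sm_eq (c : F4) (x : T4) : sm c x = c • x := rfl

/-- the normalised vector -/
def nm (x : T4) : T4 := sm (F4.inv (lead x)) x

theorem lead_ne : ∀ x : T4, lead x ≠ 0 := by decide +kernel

theorem nm_nm : ∀ x : T4, nm (nm x) = nm x := by decide +kernel

theorem nm_sm : ∀ c : F4, c ≠ 0 → ∀ x : T4, nm (sm c x) = nm x := by decide +kernel

theorem nm_ne : ∀ x : T4, x ≠ 0 → nm x ≠ 0 := by decide +kernel

theorem nm_eq_smul (x : T4) : nm x = (lead x)⁻¹ • x := rfl

theorem col_nm : Col nm := by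
  intro ι x
  have h1 : (fun i => nm (x i)) = (fun i => (Units.mk0 (lead (x i)) (lead_ne _))⁻¹) • x := by
    funext i
    exact nm_eq_smul (x i)
  rw [h1]
  exact LinearIndependent.units_smul_iff x _

/-- the linear map with the columns `a`, `b`, `c`, `d` -/
def lin (a b c d x : T4) : T4 :=
  (F4.add (F4.add (F4.mul a.1 x.1) (F4.mul b.1 x.2.1))
      (F4.add (F4.mul c.1 x.2.2.1) (F4.mul d.1 x.2.2.2)),
    F4.add (F4.add (F4.mul a.2.1 x.1) (F4.mul b.2.1 x.2.1))
      (F4.add (F4.mul c.2.1 x.2.2.1) (F4.mul d.2.1 x.2.2.2)),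
    F4.add (F4.add (F4.mul a.2.2.1 x.1) (F4.mul b.2.2.1 x.2.1))
      (F4.add (F4.mul c.2.2.1 x.2.2.1) (F4.mul d.2.2.1 x.2.2.2)),
    F4.add (F4.add (F4.mul a.2.2.2 x.1) (F4.mul b.2.2.2 x.2.1))
      (F4.add (F4.mul c.2.2.2 x.2.2.1) (F4.mul d.2.2.2 x.2.2.2)))

theorem lin_eq (a b c d x : T4) :
    lin a b c d x = x.1 • a + x.2.1 • b + x.2.2.1 • c + x.2.2.2 • d := by
  refine Prod.ext ?_ (Prod.ext ?_ (Prod.ext ?_ ?_))
  · show (a.1 * x.1 + b.1 * x.2.1) + (c.1 * x.2.2.1 + d.1 * x.2.2.2) =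
      x.1 * a.1 + x.2.1 * b.1 + x.2.2.1 * c.1 + x.2.2.2 * d.1
    ring
  · show (a.2.1 * x.1 + b.2.1 * x.2.1) + (c.2.1 * x.2.2.1 + d.2.1 * x.2.2.2) =
      x.1 * a.2.1 + x.2.1 * b.2.1 + x.2.2.1 * c.2.1 + x.2.2.2 * d.2.1
    ring
  · show (a.2.2.1 * x.1 + b.2.2.1 * x.2.1) + (c.2.2.1 * x.2.2.1 + d.2.2.1 * x.2.2.2) =
      x.1 * a.2.2.1 + x.2.1 * b.2.2.1 + x.2.2.1 * c.2.2.1 + x.2.2.2 * d.2.2.1
    ring
  · show (a.2.2.2 * x.1 + b.2.2.2 * x.2.1) + (c.2.2.2 * x.2.2.1 + d.2.2.2 * x.2.2.2) =
      x.1 * a.2.2.2 + x.2.1 * b.2.2.2 + x.2.2.1 * c.2.2.2 + x.2.2.2 * d.2.2.2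
    ring

theorem col_lin {a b c d : T4} (h : det4 a b c d ≠ 0) : Col (lin a b c d) := by
  have hli : LinearIndependent F4 ![a, b, c, d] := (li_iff ![a, b, c, d]).2 h
  rw [Fintype.linearIndependent_iff] at hli
  let L : T4 →ₗ[F4] T4 :=
    { toFun := lin a b c d
      map_add' := fun x y => by
        rw [lin_eq, lin_eq, lin_eq]
        simp only [Prod.fst_add, Prod.snd_add, add_smul]
        abel
      map_smul' := fun r x => by
        rw [lin_eq, lin_eq]
        simp only [Prod.smul_fst, Prod.smul_snd, smul_add, smul_smul, smul_eq_mul,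
          RingHom.id_apply] }
  have hker : LinearMap.ker L = ⊥ := by
    rw [LinearMap.ker_eq_bot']
    intro x hx
    have h1 : lin a b c d x = 0 := hx
    rw [lin_eq] at h1
    have h2 := hli ![x.1, x.2.1, x.2.2.1, x.2.2.2] (by
      rw [Fin.sum_univ_four]
      exact h1)
    exact Prod.ext (h2 0) (Prod.ext (h2 1) (Prod.ext (h2 2) (h2 3)))
  intro ι x
  exact LinearMap.linearIndependent_iff L hker

/-- an injective linear map keeps independence -/
theorem col_equiv (g : T4 ≃ₗ[F4] T4) : Col fun x => g x := by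
  intro ι x
  exact LinearMap.linearIndependent_iff (g : T4 →ₗ[F4] T4) (LinearEquiv.ker g)

/-- the Frobenius map on vectors -/
def fv (x : T4) : T4 := (F4.fr x.1, F4.fr x.2.1, F4.fr x.2.2.1, F4.fr x.2.2.2)

theorem fr_fr (a : F4) : F4.fr (F4.fr a) = a := by
  cases a <;> rfl

theorem fv_fv (x : T4) : fv (fv x) = x := by
  unfold fv
  simp only [fr_fr]

theorem fr_add (a b : F4) : F4.fr (a + b) = F4.fr a + F4.fr b := F4.frob.map_add a b

theorem fr_mul (a b : F4) : F4.fr (a * b) = F4.fr a * F4.fr b := F4.frob.map_mul a b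

/-- the additive Frobenius map -/
def fvh : T4 →+ T4 where
  toFun := fv
  map_zero' := rfl
  map_add' := fun x y => by
    refine Prod.ext ?_ (Prod.ext ?_ (Prod.ext ?_ ?_))
    · exact fr_add _ _
    · exact fr_add _ _
    · exact fr_add _ _
    · exact fr_add _ _

theorem fv_smul (c : F4) (x : T4) : fv (F4.fr c • x) = c • fv x := by
  have h : ∀ a : F4, F4.fr (F4.fr c * a) = c * F4.fr a := fun a => by rw [fr_mul, fr_fr]
  refine Prod.ext ?_ (Prod.ext ?_ (Prod.ext ?_ ?_))
  · exact h _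
  · exact h _
  · exact h _
  · exact h _

theorem col_fv : Col fv := by
  have h1 : ∀ (ι : Type) (x : ι → T4), LinearIndependent F4 x →
      LinearIndependent F4 (fun i => fv (x i)) := by
    intro ι x hx
    refine hx.map_of_injective_injective F4.fr fvh ?_ ?_ ?_
    · intro r hr
      have := congrArg F4.fr hr
      rwa [fr_fr] at this
    · intro m hm
      have h2 : fv m = 0 := hm
      have := congrArg fv h2
      rwa [fv_fv] at this
    · intro r m
      exact fv_smul r m
  intro ι x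
  refine ⟨fun h => ?_, h1 ι x⟩
  have h2 := h1 ι _ h
  simp only [fv_fv] at h2
  exact h2

theorem Col.pair {φ : T4 → T4} (hφ : Col φ) {x y : T4} (h : LinearIndependent F4 ![x, y]) :
    LinearIndependent F4 ![φ x, φ y] := by
  have h1 := (hφ (Fin 2) ![x, y]).2 h
  have h2 : (fun i => φ ((![x, y] : Fin 2 → T4) i)) = ![φ x, φ y] := by
    funext i
    fin_cases i <;> rfl
  rwa [h2] at h1

/-- different normalised vectors are independent -/
theorem li_pair {x y : T4} (hx : nm x = x) (hy : nm y = y) (hx0 : x ≠ 0) (hy0 : y ≠ 0)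
    (h : x ≠ y) : LinearIndependent F4 ![x, y] := by
  rw [LinearIndependent.pair_iff]
  intro s t hst
  by_cases hs : s = 0
  · subst hs
    rw [zero_smul, zero_add] at hst
    exact ⟨rfl, (smul_eq_zero.1 hst).resolve_right hy0⟩
  · exfalso
    have h1 : s • x = (-t) • y := by
      rw [neg_smul]
      exact eq_neg_of_add_eq_zero_left hst
    have ht : -t ≠ 0 := by
      intro h0
      rw [h0, zero_smul] at h1
      exact hx0 ((smul_eq_zero.1 h1).resolve_left hs)
    have h2 := congrArg nm h1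
    have h3 : nm (s • x) = nm x := nm_sm s hs x
    have h4 : nm ((-t) • y) = nm y := nm_sm (-t) ht y
    rw [h3, h4, hx, hy] at h2
    exact h h2

end Pool.Agent.H59.Ray
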