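import Pool.Agent.H59.Ray.Main

/-!
# Duality (MP_934449_co)

The dual of a representable matroid is representable; the dual of an excluded minor is an excluded
minor.
-/

set_option autoImplicit false

namespace Pool.Agent.H59.Ray

open Finset Pool.Agent.H55.Ray Matroid

/-- functionals are independent iff they take all values -/
theorem li_iff_surj {ι K W : Type*} [Finite ι] [Field K] [AddCommGroup W] [Module K W]
    (φ : ι → Module.Dual K W) :
    LinearIndependent K φ ↔ ∀ t : ι → K, ∃ w : W, ∀ i, φ i w = t i := by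
  classical
  haveI : Fintype ι := Fintype.ofFinite ι
  constructor
  · intro h
    have hinj : Function.Injective (LinearMap.pi φ : W →ₗ[K] ι → K).dualMap := by
      rw [← LinearMap.ker_eq_bot, LinearMap.ker_eq_bot']
      intro g hg
      have h1 : ∑ i, g (Pi.single i 1) • φ i = 0 := by
        ext w
        have h2 := LinearMap.congr_fun hg w
        rw [LinearMap.dualMap_apply, LinearMap.zero_apply] at h2
        have h3 : (LinearMap.pi φ : W →ₗ[K] ι → K) w =
            ∑ i, φ i w • (Pi.single i (1 : K) : ι → K) := by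
          funext j
          rw [Finset.sum_apply]
          simp [Pi.single_apply]
        rw [h3, map_sum] at h2
        rw [LinearMap.sum_apply, LinearMap.zero_apply, ← h2]
        refine Finset.sum_congr rfl fun i _ => ?_
        rw [LinearMap.smul_apply, map_smul, smul_eq_mul, smul_eq_mul, mul_comm]
      have h4 := Fintype.linearIndependent_iff.1 h _ h1
      refine LinearMap.pi_ext' fun i => LinearMap.ext_ring ?_
      simpa using h4 i
    have hsur := LinearMap.dualMap_injective_iff.1 hinj
    intro t
    obtain ⟨w, hw⟩ := hsur t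
    exact ⟨w, fun i => congrFun hw i⟩
  · intro h
    rw [Fintype.linearIndependent_iff]
    intro g hg i
    obtain ⟨w, hw⟩ := h (Pi.single i 1)
    have h1 := LinearMap.congr_fun hg w
    rw [LinearMap.sum_apply, LinearMap.zero_apply] at h1
    simp only [LinearMap.smul_apply, hw, smul_eq_mul] at h1
    rw [Finset.sum_eq_single i (fun j _ hj => by rw [Pi.single_eq_of_ne hj, mul_zero])
      (fun hi => absurd (Finset.mem_univ i) hi)] at h1
    rwa [Pi.single_eq_same, mul_one] at h1

/-- spanning complements -/
theorem spanning_iff_span {α K V : Type*} [Field K] [AddCommGroup V] [Module K V]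
    {M : Matroid α} {v : α → V} (hv : ∀ I : Set α, M.Indep I ↔ I ⊆ M.E ∧ LinearIndepOn K v I)
    {I : Set α} (hI : I ⊆ M.E) :
    M.Spanning (M.E \ I) ↔ ∀ e ∈ I, v e ∈ Submodule.span K (v '' (M.E \ I)) := by
  constructor
  · intro hS e he
    obtain ⟨B, hB, hBS⟩ := hS.exists_isBase_subset
    have heB : e ∉ B := fun h => (hBS h).2 he
    have h1 : v e ∈ Submodule.span K (v '' B) := by
      by_contra hne
      have h2 : M.Indep (insert e B) := (hv _).2 ⟨Set.insert_subset (hI he) hB.subset_ground,
        (linearIndepOn_insert heB).2 ⟨((hv _).1 hB.indep).2, hne⟩⟩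
      have h3 := hB.eq_of_subset_indep h2 (Set.subset_insert e B)
      rw [h3] at heB
      exact heB (Set.mem_insert e B)
    exact Submodule.span_mono (Set.image_mono hBS) h1
  · intro h
    obtain ⟨B, hB⟩ := M.exists_isBasis (M.E \ I) Set.sdiff_subset
    have hin : ∀ e ∈ M.E \ I, v e ∈ Submodule.span K (v '' B) := by
      intro e he
      by_cases heB : e ∈ B
      · exact Submodule.subset_span ⟨e, heB, rfl⟩
      · by_contra hne
        have h2 : M.Indep (insert e B) := (hv _).2 ⟨Set.insert_subset he.1 hB.indep.subset_ground,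
          (linearIndepOn_insert heB).2 ⟨((hv _).1 hB.indep).2, hne⟩⟩
        have h3 := hB.eq_of_subset_indep h2 (Set.subset_insert e B)
          (Set.insert_subset he hB.subset)
        rw [h3] at heB
        exact heB (Set.mem_insert e B)
    have hall : ∀ e ∈ M.E, v e ∈ Submodule.span K (v '' B) := by
      intro e he
      by_cases heI : e ∈ I
      · have h1 := h e heI
        refine (Submodule.span_le.2 ?_) h1
        rintro x ⟨f, hf, rfl⟩
        exact hin f hf
      · exact hin e ⟨he, heI⟩
    have hBase : M.IsBase B := by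
      refine hB.indep.isBase_of_forall_insert fun e he hcon => ?_
      have h2 := ((linearIndepOn_insert he.2).1 ((hv _).1 hcon).2).2
      exact h2 (hall e he.1)
    exact hBase.spanning_of_superset hB.subset Set.sdiff_subset

/-- **The dual of a representable matroid is representable.** -/
theorem isRepr_dual {α K : Type*} [Finite α] [Field K] {M : Matroid α} (hr : IsRepr K M) :
    IsRepr K M✶ := by
  classical
  haveI : Fintype α := Fintype.ofFinite α
  obtain ⟨n, v, hv⟩ := hr
  -- the space of the dependencies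
  obtain ⟨W, hW⟩ : ∃ W : Submodule K (α → K), ∀ c, c ∈ W ↔
      (∀ a, a ∉ M.E → c a = 0) ∧ ∑ a, c a • v a = 0 := by
    refine ⟨⟨⟨⟨{c | (∀ a, a ∉ M.E → c a = 0) ∧ ∑ a, c a • v a = 0}, ?_⟩, ?_⟩, ?_⟩, fun c => Iff.rfl⟩
    · rintro c c' ⟨h1, h2⟩ ⟨h3, h4⟩
      refine ⟨fun a ha => by rw [Pi.add_apply, h1 a ha, h3 a ha, add_zero], ?_⟩
      simp only [Pi.add_apply, add_smul, Finset.sum_add_distrib]
      rw [h2, h4, add_zero]
    · refine ⟨fun a _ => rfl, ?_⟩
      simp only [Pi.zero_apply, zero_smul, Finset.sum_const_zero]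
    · rintro r c ⟨h1, h2⟩
      refine ⟨fun a ha => by rw [Pi.smul_apply, h1 a ha, smul_zero], ?_⟩
      simp only [Pi.smul_apply, smul_assoc, ← Finset.smul_sum]
      rw [h2, smul_zero]
  let φ : α → Module.Dual K W := fun a => (LinearMap.proj a : (α → K) →ₗ[K] K) ∘ₗ W.subtype
  have hφ : ∀ a (c : W), φ a c = (c : α → K) a := fun a c => rfl
  refine isRepr_of φ fun I => ?_
  rw [dual_ground]
  by_cases hI : I ⊆ M.E
  swap
  · exact ⟨fun h => absurd h.subset_ground hI, fun h => absurd h.1 hI⟩
  have h1 : M✶.Indep I ↔ M.Spanning (M.E \ I) := by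
    rw [← coindep_def]
    exact coindep_iff_compl_spanning hI
  rw [h1, spanning_iff_span hv hI]
  have h2 : LinearIndepOn K φ I ↔ ∀ t : I → K, ∃ w : W, ∀ i : I, φ i w = t i :=
    li_iff_surj (fun i : I => φ i)
  rw [h2, and_iff_right hI]
  constructor
  · intro h t
    -- the combination of the vectors in `I` is in the span of the others
    have h3 : -(∑ i : I, t i • v i) ∈ Submodule.span K (v '' (M.E \ I)) :=
      Submodule.neg_mem _ (Submodule.sum_mem _ fun i _ => Submodule.smul_mem _ _ (h i i.2))
    obtain ⟨l, hl, hlx⟩ := (Finsupp.mem_span_image_iff_linearCombination K).1 h3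
    have hl0 : ∀ a, a ∉ M.E \ I → l a = 0 := fun a ha => by
      by_contra hne
      exact ha (hl (Finsupp.mem_support_iff.2 hne))
    have hlx' : ∑ a, l a • v a = -(∑ i : I, t i • v i) := by
      rw [← hlx, Finsupp.linearCombination_apply, Finsupp.sum_fintype]
      intro a
      exact zero_smul _ _
    let c : α → K := fun a => if h : a ∈ I then t ⟨a, h⟩ else l a
    have hcI : ∀ i : I, c i = t i := fun i => dif_pos i.2
    have hc : ∀ a, c a = l a + (if h : a ∈ I then t ⟨a, h⟩ else 0) := by
      intro a
      by_cases ha : a ∈ I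
      · have h4 : l a = 0 := hl0 a fun h5 => h5.2 ha
        show (if h : a ∈ I then t ⟨a, h⟩ else l a) = _
        rw [dif_pos ha, dif_pos ha, h4, zero_add]
      · show (if h : a ∈ I then t ⟨a, h⟩ else l a) = _
        rw [dif_neg ha, dif_neg ha, add_zero]
    have hsumI : ∑ a, (if h : a ∈ I then t ⟨a, h⟩ else 0) • v a = ∑ i : I, t i • v i := by
      have h4 : (∑ a, (if h : a ∈ I then t ⟨a, h⟩ else 0) • v a) =
          ∑ a ∈ Finset.univ.filter (fun a => a ∈ I),
            (if h : a ∈ I then t ⟨a, h⟩ else 0) • v a := by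
        refine (Finset.sum_filter_of_ne fun a _ hne => ?_).symm
        by_contra hn
        exact hne (by rw [dif_neg hn, zero_smul])
      rw [h4, Finset.sum_subtype (p := fun a => a ∈ I) _ (fun a => by simp)]
      refine Finset.sum_congr rfl fun i _ => ?_
      rw [dif_pos i.2]
    have hcW : c ∈ W := by
      rw [hW]
      refine ⟨fun a ha => ?_, ?_⟩
      · have ha1 : a ∉ I := fun h => ha (hI h)
        rw [hc, dif_neg ha1, add_zero]
        exact hl0 a fun h => ha h.1
      · simp only [hc, add_smul, Finset.sum_add_distrib]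
        rw [hsumI, hlx', neg_add_cancel]
    exact ⟨⟨c, hcW⟩, fun i => hcI i⟩
  · intro h e he
    obtain ⟨w, hw⟩ := h (Pi.single ⟨e, he⟩ 1)
    have hwW := (hW _).1 w.2
    have hwI : ∀ a (ha : a ∈ I), (w : α → K) a = (Pi.single (⟨e, he⟩ : I) (1 : K) : I → K) ⟨a, ha⟩ :=
      fun a ha => hw ⟨a, ha⟩
    have h3 : (w : α → K) e = 1 := by rw [hwI e he, Pi.single_eq_same]
    have h4 := hwW.2
    rw [← Finset.add_sum_erase _ _ (Finset.mem_univ e), h3, one_smul] at h4
    rw [eq_neg_of_add_eq_zero_left h4]
    refine Submodule.neg_mem _ (Submodule.sum_mem _ fun a ha => ?_)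
    have hae : a ≠ e := (Finset.mem_erase.1 ha).1
    by_cases haI : a ∈ I
    · rw [hwI a haI, Pi.single_eq_of_ne (fun h5 => hae (congrArg Subtype.val h5)), zero_smul]
      exact Submodule.zero_mem _
    · by_cases haE : a ∈ M.E
      · exact Submodule.smul_mem _ _ (Submodule.subset_span ⟨a, ⟨haE, haI⟩, rfl⟩)
      · rw [hwW.1 a haE, zero_smul]
        exact Submodule.zero_mem _

/-- **The dual of an excluded minor is an excluded minor.** -/
theorem isExcl_dual {α K : Type*} [Fintype α] [Field K] {M : Matroid α} (h : IsExcl K M) :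
    IsExcl K M✶ := by
  have hd : ∀ N : Matroid α, InClass K N → InClass K N✶ := fun N hN =>
    ⟨isRepr_dual hN.1, (Pool.Agent.H75.Ray.isRayleigh_dual N).2 hN.2⟩
  refine ⟨fun hc => h.1 ?_, fun e he => ?_⟩
  · have h1 := hd _ hc
    rwa [dual_dual] at h1
  · have h1 := h.2 e he
    refine ⟨?_, ?_⟩
    · have h2 := hd _ h1.2
      rwa [dual_contract] at h2
    · have h2 := hd _ h1.1
      rwa [dual_delete] at h2

end Pool.Agent.H59.Ray
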