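import Pool.Agent.H59.Ray.Reps

/-!
# Extension tables of the sets with 4 points (MP_934449_co)
-/

set_option autoImplicit false

namespace Pool.Agent.H59.Ray

/-- the table of the representative 0 -/
def tab4_0 : List ℕ :=
[275146604805, 281750123577609, 275146866957, 274946064657, 274945085460, 1374658232597,
  282849635205401, 1374658494749, 281749989884193, 281749988904996, 282849903378725,
  282849903640873, 1375195365677, 275013173553, 275012194356, 1374926668085, 282850172076345,
  1374926930237, 18254659905, 18253680708, 1169305108805, 282644282081609, 1169305370957,
  17200844880, 1168302408017, 1168298295380, 2474169860437, 283949146833241, 2474170122589,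
  282643346227553, 282643342114916, 283949415006565, 283949415268713, 2474706993517,
  1168369516913, 1168365404276, 2474438295925, 283949683704185, 2474438558077, 281510411239809,
  281510410260612, 282713001296261, 282713001558409, 1306744324493, 281509357424784,
  282711998595473, 282711994482836, 284224024478101, 284224024740249, 3023925936541,
  282712065704353, 282712061591716, 284224292913573, 284224293175721, 3024462807469,
  1305808470449, 1305804357812, 3024194109877, 284224561611193, 3024194372029, 35434529217,
  35433550020, 1238024585669, 282781721035209, 1238024847821, 34380714192, 1237021884881,
  1237017772244, 2749047767509, 284498902647257, 2749048029661, 282780785181153,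
  282780781068516, 284499170820581, 284499171082729, 2749584900589, 1237088993777,
  1237084881140, 2749316202997, 284499439518201, 2749316465149]

theorem tab4_0_ok : tabOK [1, 4, 16, 64] reps5 tab4_0 = true := by decide +kernel

end Pool.Agent.H59.Ray
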