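import Pool.Agent.H59.Ray.Ext
import Pool.Agent.H59.Ray.Tab4
import Pool.Agent.H59.Ray.Tab5
import Pool.Agent.H59.Ray.Tab6
import Pool.Agent.H59.Ray.Tab7a
import Pool.Agent.H59.Ray.Tab7b
import Pool.Agent.H59.Ray.Tab7c
import Pool.Agent.H59.Ray.Tab7d

/-!
# Every spanning set with at most 8 points is equivalent to a representative (MP_934449_co)
-/

set_option autoImplicit false

namespace Pool.Agent.H59.Ray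

private theorem all_of (P : List ℕ → Prop) (l : List (List ℕ)) (h : List.Forall P l) :
    ∀ S ∈ l, P S := List.forall_iff_forall_mem.1 h

theorem claim_five : Claim 5 reps5 := by
  refine claim_step (k := 4) (by norm_num) claim_four (by decide +kernel) ?_
  exact all_of _ _ (⟨_, tab4_0_ok⟩ : _)

theorem claim_six : Claim 6 reps6 := by
  refine claim_step (k := 5) (by norm_num) claim_five (by decide +kernel) ?_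
  exact all_of _ _ ⟨⟨_, tab5_0_ok⟩, ⟨_, tab5_1_ok⟩, ⟨_, tab5_2_ok⟩⟩

theorem claim_seven : Claim 7 reps7 := by
  refine claim_step (k := 6) (by norm_num) claim_six (by decide +kernel) ?_
  exact all_of _ _ ⟨⟨_, tab6_0_ok⟩, ⟨_, tab6_1_ok⟩, ⟨_, tab6_2_ok⟩, ⟨_, tab6_3_ok⟩,
    ⟨_, tab6_4_ok⟩, ⟨_, tab6_5_ok⟩, ⟨_, tab6_6_ok⟩, ⟨_, tab6_7_ok⟩, ⟨_, tab6_8_ok⟩,
    ⟨_, tab6_9_ok⟩⟩

theorem claim_eight : Claim 8 reps8 := by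
  refine claim_step (k := 7) (by norm_num) claim_seven (by decide +kernel) ?_
  exact all_of _ _ ⟨⟨_, tab7_0_ok⟩, ⟨_, tab7_1_ok⟩, ⟨_, tab7_2_ok⟩, ⟨_, tab7_3_ok⟩,
    ⟨_, tab7_4_ok⟩, ⟨_, tab7_5_ok⟩, ⟨_, tab7_6_ok⟩, ⟨_, tab7_7_ok⟩, ⟨_, tab7_8_ok⟩,
    ⟨_, tab7_9_ok⟩, ⟨_, tab7_10_ok⟩, ⟨_, tab7_11_ok⟩, ⟨_, tab7_12_ok⟩, ⟨_, tab7_13_ok⟩,
    ⟨_, tab7_14_ok⟩, ⟨_, tab7_15_ok⟩, ⟨_, tab7_16_ok⟩, ⟨_, tab7_17_ok⟩, ⟨_, tab7_18_ok⟩,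
    ⟨_, tab7_19_ok⟩, ⟨_, tab7_20_ok⟩, ⟨_, tab7_21_ok⟩, ⟨_, tab7_22_ok⟩, ⟨_, tab7_23_ok⟩,
    ⟨_, tab7_24_ok⟩, ⟨_, tab7_25_ok⟩, ⟨_, tab7_26_ok⟩, ⟨_, tab7_27_ok⟩, ⟨_, tab7_28_ok⟩,
    ⟨_, tab7_29_ok⟩, ⟨_, tab7_30_ok⟩, ⟨_, tab7_31_ok⟩, ⟨_, tab7_32_ok⟩, ⟨_, tab7_33_ok⟩,
    ⟨_, tab7_34_ok⟩⟩

end Pool.Agent.H59.Ray
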