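import Pool.Agent.H59.Ray.Main

/-!
# An excluded minor with eleven elements (MP_934449_co)

`M11` is the linear matroid over `F4` of eleven vectors in dimension 4.
-/

set_option autoImplicit false

namespace Pool.Agent.H59.Ray

open Finset Pool.Agent.H55.Ray Matroid

/-- the codes of the eleven vectors -/
def elevL : List ℕ := [1, 4, 16, 64, 85, 228, 209, 80, 148, 97, 116]

/-- the eleven vectors -/
def vecE (t : Fin 11) : T4 := dc (elevL.getD t 0)

/-- **The matroid with eleven elements.** -/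
def M11 : Matroid (Fin 11) := linMat F4 vecE

/-- mask of a set -/
def mskE (T : Finset (Fin 11)) : ℕ := ∑ t ∈ T, 2 ^ (t : ℕ)

/-- the list of the bits of a mask -/
def bitsE (m : ℕ) : List (Fin 11) := (List.finRange 11).filter fun t => m.testBit (t : ℕ)

/-- the mask of a basis -/
def isBE (m : ℕ) : Bool :=
  match bitsE m with
  | [p, q, r, s] => det4 (vecE p) (vecE q) (vecE r) (vecE s) != 0
  | _ => false

theorem bits_mskE : ∀ T : Finset (Fin 11),
    (bitsE (mskE T)).toFinset = T ∧ (bitsE (mskE T)).Nodup := by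
  decide +kernel

/-- independence of four of the vectors -/
theorem indep_iff_isBE {T : Finset (Fin 11)} (hT : T.card = 4) :
    LinearIndepOn F4 vecE (T : Set (Fin 11)) ↔ isBE (mskE T) = true := by
  obtain ⟨hbT, hbN⟩ := bits_mskE T
  have hlen4 : (bitsE (mskE T)).length = 4 := by
    rw [← List.toFinset_card_of_nodup hbN, hbT, hT]
  unfold isBE
  rcases hbits : bitsE (mskE T) with _ | ⟨p, _ | ⟨q, _ | ⟨r, _ | ⟨s, _ | ⟨u, l⟩⟩⟩⟩⟩
  · rw [hbits] at hlen4; simp at hlen4
  · rw [hbits] at hlen4; simp at hlen4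
  · rw [hbits] at hlen4; simp at hlen4
  · rw [hbits] at hlen4; simp at hlen4
  · simp only [bne_iff_ne]
    rw [hbits] at hbT hbN
    have hxinj : Function.Injective ![p, q, r, s] := by
      have h1 := List.nodup_ofFn (f := ![p, q, r, s])
      have h2 : List.ofFn ![p, q, r, s] = [p, q, r, s] := by simp
      rw [h2] at h1
      exact h1.1 hbN
    have hrange : (T : Set (Fin 11)) = Set.range ![p, q, r, s] := by
      rw [← hbT]
      ext a
      simp only [Set.mem_range, List.coe_toFinset, Set.mem_ofPred_eq,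
        List.mem_cons, List.not_mem_nil, or_false]
      constructor
      · rintro (rfl | rfl | rfl | rfl)
        · exact ⟨0, rfl⟩
        · exact ⟨1, rfl⟩
        · exact ⟨2, rfl⟩
        · exact ⟨3, rfl⟩
      · rintro ⟨k, rfl⟩
        fin_cases k
        · exact Or.inl rfl
        · exact Or.inr (Or.inl rfl)
        · exact Or.inr (Or.inr (Or.inl rfl))
        · exact Or.inr (Or.inr (Or.inr rfl))
    rw [hrange, linearIndepOn_range_iff hxinj]
    exact li_iff (vecE ∘ ![p, q, r, s])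
  · rw [hbits] at hlen4; simp at hlen4

theorem M11_indep_le {I : Set (Fin 11)} (hI : M11.Indep I) : I.ncard ≤ 4 := by
  unfold M11 at hI
  rw [linMat_indep] at hI
  haveI : Fintype I := Fintype.ofFinite I
  have h1 := hI.fintype_card_le_finrank
  have h2 : Module.finrank F4 T4 = 4 := by
    rw [LinearEquiv.finrank_eq coe]
    simp
  rw [h2] at h1
  rwa [Set.ncard_eq_toFinset_card' I, Set.toFinset_card]

theorem M11_base_of {J : Set (Fin 11)} (hJ : M11.Indep J) (hJ4 : J.ncard = 4) :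
    M11.IsBase J := by
  obtain ⟨B, hB, hJB⟩ := hJ.exists_isBase_superset
  have := Set.eq_of_subset_of_ncard_le hJB (by rw [hJ4]; exact M11_indep_le hB.indep)
    (Set.toFinite _)
  rw [this]
  exact hB

theorem M11_base_ncard {B : Set (Fin 11)} (hB : M11.IsBase B) : B.ncard = 4 := by
  classical
  have h : ∃ T₀ : Finset (Fin 11), T₀.card = 4 ∧ isBE (mskE T₀) = true :=
    ⟨{0, 1, 2, 3}, by decide +kernel⟩
  obtain ⟨T₀, h1, h2⟩ := h
  have hB₀ : M11.IsBase (T₀ : Set (Fin 11)) :=
    M11_base_of (linMat_indep.2 ((indep_iff_isBE h1).2 h2)) (by rw [Set.ncard_coe_finset]; exact h1)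
  rw [hB.ncard_eq_ncard_of_isBase hB₀, Set.ncard_coe_finset, h1]

/-- **the bases of `M11`** -/
theorem M11_isBase (T : Finset (Fin 11)) :
    M11.IsBase (T : Set (Fin 11)) ↔ T.card = 4 ∧ isBE (mskE T) = true := by
  constructor
  · intro hT
    have h4 : T.card = 4 := by
      have h5 := M11_base_ncard hT
      rwa [Set.ncard_coe_finset] at h5
    exact ⟨h4, (indep_iff_isBE h4).1 (linMat_indep.1 hT.indep)⟩
  · rintro ⟨h4, hT⟩
    exact M11_base_of (linMat_indep.2 ((indep_iff_isBE h4).2 hT))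
      (by rw [Set.ncard_coe_finset]; exact h4)

/-! ### contractions -/

theorem M11_nonloop : ∀ e : Fin 11, M11.IsNonloop e := by
  intro e
  have h : ∀ e : Fin 11, ∃ T : Finset (Fin 11), (e ∈ T ∧ T.card = 4) ∧ isBE (mskE T) = true := by
    decide +kernel
  obtain ⟨T, ⟨h1, h2⟩, h3⟩ := h e
  have hB := (M11_isBase T).2 ⟨h2, h3⟩
  exact hB.indep.isNonloop_of_mem h1

theorem M11_contract (e : Fin 11) : IsRayleigh (M11 ／ {e}) := by
  refine Pool.Agent.H75.Ray.isRayleigh_of_rank_le_three _ fun B hB => ?_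
  have he := (M11_nonloop e).indep
  have h1 := (he.contract_isBase_iff).1 hB
  have h2 := M11_base_ncard h1.1
  rw [Set.union_singleton, Set.ncard_insert_of_notMem
    (fun h => Set.disjoint_left.1 h1.2 h rfl) (Set.toFinite _)] at h2
  omega

/-! ### deletions -/

/-- mask of a subset of `Fin 10` -/
def mskT (T : Finset (Fin 10)) : ℕ := ∑ t ∈ T, 2 ^ (t : ℕ)

/-- the representatives of the orbits -/
def rpE : Fin 11 → Fin 11 := ![0, 1, 2, 2, 4, 5, 0, 2, 1, 0, 1]

/-- the labellings of the deletions -/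
def labE : Fin 11 → Fin 10 → Fin 11 :=
  ![![1, 2, 3, 4, 5, 6, 7, 8, 9, 10], ![0, 2, 3, 4, 5, 6, 7, 8, 9, 10],
    ![0, 1, 3, 4, 5, 6, 7, 8, 9, 10], ![0, 1, 2, 4, 5, 9, 7, 10, 6, 8],
    ![0, 1, 2, 3, 5, 6, 7, 8, 9, 10], ![0, 1, 2, 3, 4, 6, 7, 8, 9, 10],
    ![1, 2, 7, 4, 5, 0, 3, 10, 9, 8], ![0, 8, 2, 4, 5, 6, 3, 10, 9, 1],
    ![0, 2, 7, 4, 5, 9, 3, 1, 6, 10], ![1, 3, 7, 4, 5, 0, 2, 8, 6, 10],
    ![0, 3, 7, 4, 5, 6, 2, 1, 9, 8]]

/-- the bases of the deletion of `x`: a zero bit is inserted at the position `x` -/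
def isb10 (x m : ℕ) : Bool := isBE (m % 2 ^ x + 2 ^ (x + 1) * (m / 2 ^ x))

theorem labE_inj : ∀ x : Fin 11, Function.Injective (labE x) := by decide

theorem labE_range (x : Fin 11) : Set.range (labE x) = {x}ᶜ := by
  have h : ∀ x y : Fin 11, (∃ t, labE x t = y) ↔ y ≠ x := by decide
  ext y
  exact h x y

theorem labE_isBE : ∀ x : Fin 11, ∀ T : Finset (Fin 10), T.card = 4 →
    isBE (mskE (T.image (labE x))) = isb10 (rpE x) (mskT T) := by decide +kernel

/-- the bases of a deletion -/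
theorem del_isBase (x : Fin 11) (T : Finset (Fin 10)) :
    (M11 ＼ {x}).IsBase (labE x '' (T : Set (Fin 10))) ↔
      T.card = 4 ∧ isb10 (rpE x) (mskT T) = true := by
  classical
  have hcard : (T.image (labE x)).card = T.card :=
    Finset.card_image_of_injective _ (labE_inj x)
  have hsub : labE x '' (T : Set (Fin 10)) ⊆ {x}ᶜ := by
    rw [← labE_range x]
    exact Set.image_subset_range _ _
  have hdis : ∀ J : Set (Fin 11), J ⊆ {x}ᶜ → Disjoint J {x} := fun J hJ =>
    Set.disjoint_singleton_right.2 fun h => hJ h rfl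
  have hlab : M11.IsBase (labE x '' (T : Set (Fin 10))) ↔
      T.card = 4 ∧ isb10 (rpE x) (mskT T) = true := by
    rw [← Finset.coe_image, M11_isBase, hcard]
    constructor
    · rintro ⟨h1, h2⟩
      exact ⟨h1, by rw [← labE_isBE x T h1]; exact h2⟩
    · rintro ⟨h1, h2⟩
      exact ⟨h1, by rw [labE_isBE x T h1]; exact h2⟩
  rw [← hlab]
  -- a base of `M11` which avoids `x` is a base of the deletion
  have key : ∀ J : Set (Fin 11), J ⊆ {x}ᶜ → M11.IsBase J → (M11 ＼ {x}).IsBase J := by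
    intro J hJ hB
    rw [delete_isBase_iff]
    exact hB.isBasis_ground.isBasis_subset (fun y hy => ⟨hB.subset_ground hy, hJ hy⟩)
      Set.sdiff_subset
  constructor
  · intro h
    have h0 : ∀ x : Fin 11, ∃ T₀ : Finset (Fin 11), (x ∉ T₀ ∧ T₀.card = 4) ∧
        isBE (mskE T₀) = true := by decide +kernel
    obtain ⟨T₀, ⟨h1, h2⟩, h3⟩ := h0 x
    have hB₀ := key _ (fun y hy => by
      rintro rfl
      exact h1 hy) ((M11_isBase T₀).2 ⟨h2, h3⟩)
    have h4 : (labE x '' (T : Set (Fin 10))).ncard = 4 := by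
      rw [h.ncard_eq_ncard_of_isBase hB₀, Set.ncard_coe_finset, h2]
    exact M11_base_of h.indep.of_delete h4
  · exact key _ hsub

/-- what remains: the five deletions are Rayleigh -/
def DelGood : Prop := ∀ x : Fin 11, x ∈ [(0 : Fin 11), 1, 2, 4, 5] →
  ∀ (M : Matroid (Fin 11)) (φ : Fin 10 → Fin 11), Function.Injective φ → Set.range φ = M.E →
    (∀ T : Finset (Fin 10), M.IsBase (φ '' (T : Set (Fin 10))) ↔
      T.card = 4 ∧ isb10 x (mskT T) = true) → IsRayleigh M

theorem M11_delete (h : DelGood) (x : Fin 11) : IsRayleigh (M11 ＼ {x}) := by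
  have h1 : ∀ x : Fin 11, rpE x ∈ [(0 : Fin 11), 1, 2, 4, 5] := by decide
  refine h (rpE x) (h1 x) _ (labE x) (labE_inj x) ?_ (del_isBase x)
  rw [labE_range x, delete_ground]
  have h2 : M11.E = Set.univ := rfl
  rw [h2, Set.compl_eq_univ_sdiff]

theorem M11_isRepr {K : Type*} [Field K] [Fintype K] (hK : Fintype.card K = 4) :
    IsRepr K M11 := by
  have θ : F4 ≃+* K := FiniteField.ringEquivOfCardEq (F4.card.trans hK.symm)
  exact isRepr_ring θ (isRepr_linMat _)

/-- **`M11` is an excluded minor**, if the deletions are Rayleigh and `M11` is not -/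
theorem M11_excl (h : DelGood) (hn : ¬ IsRayleigh M11) {K : Type*} [Field K] [Fintype K]
    (hK : Fintype.card K = 4) : IsExcl K M11 := by
  have hr := M11_isRepr hK
  exact ⟨fun hc => hn hc.2, fun e he => ⟨⟨isRepr_delete hr _, M11_delete h e⟩,
    ⟨isRepr_contract_all hr he, M11_contract e⟩⟩⟩

end Pool.Agent.H59.Ray
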