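import Pool.Agent.H59.Ray.Elev
import Pool.Agent.H75.RayN.LabN

/-!
# The matroid with eleven elements is not Rayleigh (MP_934449_co)
-/

set_option autoImplicit false

namespace Pool.Agent.H59.Ray

open Finset Pool.Agent.H55.Ray Matroid
open Pool.Agent.H75.RayN (phi mono selL codes)

/-- the weights -/
def wE : ℕ → ℕ := fun t => [1, 400, 20, 20, 1, 1, 1, 20, 400, 1, 400].getD t 1

/-- values of lists of terms with natural numbers -/
def phiE (L : List (ℕ × ℕ)) : ℕ :=
  (L.map fun a => a.1 * ∏ t ∈ range 11, wE t ^ Pool.Agent.H75.Ray.dg a.2 t).sum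

theorem phiE_cast (L : List (ℕ × ℕ)) : phi 11 (fun t => (wE t : ℝ)) L = (phiE L : ℝ) := by
  unfold phi phiE
  rw [Nat.cast_list_sum, List.map_map]
  congr 1
  refine List.map_congr_left fun a _ => ?_
  unfold mono
  simp only [Function.comp]
  rw [Nat.cast_mul]
  congr 1
  rw [Nat.cast_prod]
  refine Finset.prod_congr rfl fun t _ => ?_
  rw [Nat.cast_pow]

theorem phiE_lt :
    phiE (selL 4 5 1 0 (codes 11 4 isBE)) * phiE (selL 4 5 0 1 (codes 11 4 isBE)) <
      phiE (selL 4 5 1 1 (codes 11 4 isBE)) * phiE (selL 4 5 0 0 (codes 11 4 isBE)) := by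
  decide +kernel

/-- **`M11` is not Rayleigh.** -/
theorem M11_not : ¬ IsRayleigh M11 := by
  intro hR
  rw [isRayleigh_iff] at hR
  have hpos : ∀ a : Fin 11, 0 < wE a := by decide
  have h1 := hR 4 (Set.mem_univ _) 5 (Set.mem_univ _) (by decide)
    (fun a => (wE a : ℝ)) (fun a => by exact_mod_cast hpos a)
  have h2 := Pool.Agent.H75.RayN.rayDiff_codes (M := M11) (φ := fun a : Fin 11 => a)
    (fun _ _ h => h) (by rw [Set.range_id']; rfl) (r := 4) (isb := isBE)
    (fun T => by rw [Set.image_id']; exact M11_isBase T) (y := fun a => (wE a : ℝ))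
    (w := fun t => (wE t : ℝ)) (fun _ => rfl) 4 5
  rw [h2] at h1
  have h3 := phiE_lt
  have h4 : (phiE (selL 4 5 1 0 (codes 11 4 isBE)) : ℝ) *
      (phiE (selL 4 5 0 1 (codes 11 4 isBE)) : ℝ) <
      (phiE (selL 4 5 1 1 (codes 11 4 isBE)) : ℝ) *
      (phiE (selL 4 5 0 0 (codes 11 4 isBE)) : ℝ) := by exact_mod_cast h3
  rw [← phiE_cast, ← phiE_cast, ← phiE_cast, ← phiE_cast] at h4
  have h5 : ((4 : Fin 11) : ℕ) = 4 := rfl
  have h6 : ((5 : Fin 11) : ℕ) = 5 := rfl
  rw [h5, h6] at h1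
  linarith

end Pool.Agent.H59.Ray
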