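import Pool.Agent.H59.Ray.Reps

/-!
# Extension of representatives by one point (MP_934449_co)
-/

set_option autoImplicit false

namespace Pool.Agent.H59.Ray

open Finset

/-- normalised points -/
def Pt (x : T4) : Prop := nm x = x ∧ x ≠ 0

/-- the points of a list of codes -/
def LS (S : List ℕ) : Finset T4 := (S.map dc).toFinset

theorem mem_LS {S : List ℕ} {x : T4} : x ∈ LS S ↔ x ∈ S.map dc := List.mem_toFinset

theorem card_LS (S : List ℕ) : (LS S).card ≤ S.length :=
  (List.toFinset_card_le _).trans (List.length_map dc).le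

theorem Col.ne_zero {φ : T4 → T4} (hφ : Col φ) {x : T4} (hx : x ≠ 0) : φ x ≠ 0 := by
  have h1 : LinearIndependent F4 (fun _ : Unit => x) := by
    rw [linearIndependent_unique_iff]
    exact hx
  have h2 := (hφ Unit fun _ => x).2 h1
  rw [linearIndependent_unique_iff] at h2
  exact h2

theorem Col.injOn {φ : T4 → T4} (hφ : Col φ) {x y : T4} (hx : Pt x) (hy : Pt y)
    (h : φ x = φ y) : x = y := by
  by_contra hne
  have h1 := hφ.pair (li_pair hx.1 hy.1 hx.2 hy.2 hne)
  have h2 := h1.injective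
  have h3 : (0 : Fin 2) = 1 := h2 h
  exact absurd h3 (by decide)

/-- the claim for the sets with `k` points -/
def Claim (k : ℕ) (R : List (List ℕ)) : Prop :=
  ∀ X : Finset T4, X.card = k → (∀ x ∈ X, Pt x) →
    (∃ b : Fin 4 → T4, LinearIndependent F4 b ∧ ∀ i, b i ∈ X) →
    ∃ φ : T4 → T4, Col φ ∧ (∀ x, nm (φ x) = φ x) ∧ ∃ S ∈ R, X.image φ = LS S

/-- the first claim -/
theorem claim_four : Claim 4 reps4 := by
  classical
  intro X hX hP ⟨b, hb, hbX⟩
  have hdet := (li_iff b).1 hb
  -- the linear equivalence with the columns `b`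
  let L : T4 →ₗ[F4] T4 :=
    { toFun := lin (b 0) (b 1) (b 2) (b 3)
      map_add' := fun x y => by
        rw [lin_eq, lin_eq, lin_eq]
        simp only [Prod.fst_add, Prod.snd_add, add_smul]
        abel
      map_smul' := fun r x => by
        rw [lin_eq, lin_eq]
        simp only [Prod.smul_fst, Prod.smul_snd, smul_add, smul_smul, smul_eq_mul,
          RingHom.id_apply] }
  have hker : LinearMap.ker L = ⊥ := by
    rw [LinearMap.ker_eq_bot']
    intro x hx
    have h1 : lin (b 0) (b 1) (b 2) (b 3) x = 0 := hx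
    rw [lin_eq] at h1
    have h2 := (Fintype.linearIndependent_iff.1 hb) ![x.1, x.2.1, x.2.2.1, x.2.2.2] (by
      rw [Fin.sum_univ_four]
      exact h1)
    exact Prod.ext (h2 0) (Prod.ext (h2 1) (Prod.ext (h2 2) (h2 3)))
  let g : T4 ≃ₗ[F4] T4 := LinearEquiv.ofInjectiveEndo L (LinearMap.ker_eq_bot.1 hker)
  have hg : ∀ x, g x = lin (b 0) (b 1) (b 2) (b 3) x := fun x => rfl
  have hu : ∀ i : Fin 4, g (dc (4 ^ (i : ℕ))) = b i := by
    intro i
    rw [hg, lin_eq]
    fin_cases i
    · show (1 : F4) • b 0 + (0 : F4) • b 1 + (0 : F4) • b 2 + (0 : F4) • b 3 = b 0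
      simp
    · show (0 : F4) • b 0 + (1 : F4) • b 1 + (0 : F4) • b 2 + (0 : F4) • b 3 = b 1
      simp
    · show (0 : F4) • b 0 + (0 : F4) • b 1 + (1 : F4) • b 2 + (0 : F4) • b 3 = b 2
      simp
    · show (0 : F4) • b 0 + (0 : F4) • b 1 + (0 : F4) • b 2 + (1 : F4) • b 3 = b 3
      simp
  have hcol : Col fun x => nm (g.symm x) := (col_equiv g.symm).comp col_nm
  refine ⟨fun x => nm (g.symm x), hcol, fun x => nm_nm _, [1, 4, 16, 64],
    by decide, ?_⟩
  -- the image of `X`
  have hXb : X = univ.image b := by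
    symm
    apply eq_of_subset_of_card_le
    · intro x hx
      obtain ⟨i, -, rfl⟩ := mem_image.1 hx
      exact hbX i
    · rw [card_image_of_injective _ hb.injective, card_univ, Fintype.card_fin, hX]
  rw [hXb, image_image]
  ext x
  rw [mem_image, mem_LS]
  constructor
  · rintro ⟨i, -, rfl⟩
    have h1 : g.symm (b i) = dc (4 ^ (i : ℕ)) := by
      rw [← hu i, LinearEquiv.symm_apply_apply]
    show nm (g.symm (b i)) ∈ _
    rw [h1]
    fin_cases i <;> decide
  · intro hx
    have h2 : ∃ i : Fin 4, nm (dc (4 ^ (i : ℕ))) = x := by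
      rcases List.mem_map.1 hx with ⟨n, hn, rfl⟩
      simp only [List.mem_cons, List.not_mem_nil, or_false] at hn
      rcases hn with rfl | rfl | rfl | rfl
      · exact ⟨0, by decide⟩
      · exact ⟨1, by decide⟩
      · exact ⟨2, by decide⟩
      · exact ⟨3, by decide⟩
    obtain ⟨i, hi⟩ := h2
    refine ⟨i, mem_univ _, ?_⟩
    show nm (g.symm (b i)) = x
    rw [← hu i, LinearEquiv.symm_apply_apply, hi]

/-- the step -/
theorem claim_step {k : ℕ} (hk : 4 ≤ k) {R R' : List (List ℕ)} (h : Claim k R)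
    (hR' : ∀ S ∈ R', S.length = k + 1)
    (ht : ∀ S ∈ R, ∃ rows : List ℕ, tabOK S R' rows = true) : Claim (k + 1) R' := by
  classical
  intro X hX hP ⟨b, hb, hbX⟩
  have hbc : (univ.image b).card = 4 := by
    rw [card_image_of_injective _ hb.injective, card_univ, Fintype.card_fin]
  obtain ⟨p, hpX, hpb⟩ : ∃ p ∈ X, p ∉ univ.image b := by
    by_contra hcon
    push Not at hcon
    have := card_le_card (show X ⊆ univ.image b from fun p hp => hcon p hp)
    omega
  obtain ⟨φ, hφ, hφn, S, hS, hXS⟩ := h (X.erase p) (by rw [card_erase_of_mem hpX, hX]; omega)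
    (fun x hx => hP x (mem_of_mem_erase hx))
    ⟨b, hb, fun i => mem_erase.2 ⟨fun h0 => hpb (h0 ▸ mem_image_of_mem b (mem_univ i)), hbX i⟩⟩
  obtain ⟨rows, hrows⟩ := ht S hS
  have hq0 : φ p ≠ 0 := hφ.ne_zero (hP p hpX).2
  have hqS : φ p ∉ S.map dc := by
    intro hmem
    rw [← mem_LS, ← hXS] at hmem
    obtain ⟨x, hx, hxp⟩ := mem_image.1 hmem
    have := hφ.injOn (hP x (mem_of_mem_erase hx)) (hP p hpX) hxp
    exact (mem_erase.1 hx).1 this
  obtain ⟨ψ, hψ, hψn, T, hT, hψT⟩ := tab_sound hrows (hφn p) hq0 hqS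
  refine ⟨fun x => ψ (φ x), hφ.comp hψ, fun x => hψn _, T, hT, ?_⟩
  apply eq_of_subset_of_card_le
  · intro y hy
    obtain ⟨x, hx, rfl⟩ := mem_image.1 hy
    rw [mem_LS]
    refine hψT _ ?_
    by_cases hxp : x = p
    · rw [hxp]
      exact List.mem_cons_self
    · refine List.mem_cons_of_mem _ ?_
      rw [← mem_LS, ← hXS]
      exact mem_image_of_mem φ (mem_erase.2 ⟨hxp, hx⟩)
  · have h1 : (X.image fun x => ψ (φ x)).card = k + 1 := by
      rw [card_image_of_injOn, hX]
      intro x hx y hy hxy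
      exact (hφ.comp hψ).injOn (hP x hx) (hP y hy) hxy
    rw [h1]
    exact (card_LS T).trans (hR' T hT).le

end Pool.Agent.H59.Ray
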