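import Mathlib

/-!
# The field with four elements, computable (MP_934449_co)

`F4`: four constructors `z = 0`, `o = 1`, `w`, `v = w + 1 = w ^ 2`; all laws are checked by
`decide`.
-/

set_option autoImplicit false

namespace Pool.Agent.H59.Ray

/-- the field with four elements -/
inductive F4 : Type
  | z | o | w | v
  deriving DecidableEq

namespace F4

instance : Fintype F4 := ⟨{z, o, w, v}, fun x => by cases x <;> decide⟩

/-- addition -/
def add : F4 → F4 → F4
  | z, x => x
  | x, z => x
  | o, o => z
  | o, w => v
  | o, v => w
  | w, o => v
  | w, w => z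
  | w, v => o
  | v, o => w
  | v, w => o
  | v, v => z

/-- multiplication -/
def mul : F4 → F4 → F4
  | z, _ => z
  | _, z => z
  | o, x => x
  | x, o => x
  | w, w => v
  | w, v => o
  | v, w => o
  | v, v => w

/-- inverse -/
def inv : F4 → F4
  | z => z
  | o => o
  | w => v
  | v => w

/-- the Frobenius map -/
def fr : F4 → F4
  | z => z
  | o => o
  | w => v
  | v => w

instance : Zero F4 := ⟨z⟩
instance : One F4 := ⟨o⟩
instance : Add F4 := ⟨add⟩
instance : Mul F4 := ⟨mul⟩
instance : Neg F4 := ⟨fun x => x⟩
instance : Sub F4 := ⟨add⟩
instance : Inv F4 := ⟨inv⟩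

instance : Field F4 where
  add_assoc := by decide
  zero_add := by decide
  add_zero := by decide
  add_comm := by decide
  nsmul := nsmulRec
  zsmul := zsmulRec
  neg_add_cancel := by decide
  sub_eq_add_neg := by decide
  left_distrib := by decide
  right_distrib := by decide
  zero_mul := by decide
  mul_zero := by decide
  mul_assoc := by decide
  one_mul := by decide
  mul_one := by decide
  mul_comm := by decide
  exists_pair_ne := ⟨z, o, by decide⟩
  mul_inv_cancel := by decide
  inv_zero := by decide
  nnqsmul := _
  qsmul := _
  nnqsmul_def := fun _ _ => rfl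
  qsmul_def := fun _ _ => rfl

theorem card : Fintype.card F4 = 4 := by decide

theorem add_self (x : F4) : x + x = 0 := by
  cases x <;> rfl

theorem neg_eq (x : F4) : -x = x := rfl

/-- the Frobenius automorphism -/
def frob : F4 ≃+* F4 where
  toFun := fr
  invFun := fr
  left_inv := by intro x; cases x <;> rfl
  right_inv := by intro x; cases x <;> rfl
  map_mul' := by decide
  map_add' := by decide

end F4

end Pool.Agent.H59.Ray
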