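import Pool.Agent.H59.Ray.Seven

/-!
# Copies of the seven matroids (MP_934449_co)

`IsCopy N M`: `M` is a copy of the matroid `N` on `Fin 8`.  The seven matroids are pairwise not
isomorphic; a matroid with a labelling whose bases are those of the list `sevenL j` is a copy of
`N j`.
-/

set_option autoImplicit false

namespace Pool.Agent.H59.Ray

open Finset Pool.Agent.H55.Ray Matroid

/-- **`M` is isomorphic to `N`.** -/
def IsCopy {α : Type*} (N : Matroid (Fin 8)) (M : Matroid α) : Prop :=
  ∃ φ : Fin 8 → α, ∃ h : Function.Injective φ, M = N.map φ h.injOn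

theorem IsCopy.of {α : Type*} {M : Matroid α} {S : List ℕ} {T₀ : Finset (Fin 8)}
    (hT₀ : T₀.card = 4) (hS : isBS S (msk T₀) = true) {φ : Fin 8 → α}
    (hφ : Function.Injective φ) (hr : Set.range φ = M.E)
    (h : ∀ T : Finset (Fin 8), M.IsBase (φ '' (T : Set (Fin 8))) ↔
      T.card = 4 ∧ isBS S (msk T) = true) : IsCopy (linMat F4 (vec S)) M := by
  classical
  refine ⟨φ, hφ, ?_⟩
  apply Matroid.ext_isBase
  · rw [map_ground, linMat_ground, Set.image_univ, hr]
  · intro B hB
    rw [← hr] at hB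
    obtain ⟨T, rfl⟩ := Set.subset_range_iff_exists_image_eq.1 hB
    have hT : ((Set.toFinite T).toFinset : Set (Fin 8)) = T := Set.Finite.coe_toFinset _
    rw [← hT, h, ← lin_isBase hT₀ hS, map_isBase_iff]
    constructor
    · intro h1
      exact ⟨_, h1, rfl⟩
    · rintro ⟨T', hT', h2⟩
      have h3 := hφ.image_injective h2
      rw [h3]
      exact hT'

/-- the number of bases containing `t` -/
def dgr (j : Fin 7) (t : Fin 8) : ℕ :=
  (univ.filter fun T : Finset (Fin 8) =>
    t ∈ T ∧ T.card = 4 ∧ isBS (sevenL j) (msk T) = true).card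

/-- an invariant -/
def inv3 (j : Fin 7) : ℕ := ∑ t : Fin 8, dgr j t ^ 3

theorem inv3_inj : ∀ j j' : Fin 7, inv3 j = inv3 j' → j = j' := by decide +kernel

theorem dgr_perm {j j' : Fin 7} (σ : Fin 8 ≃ Fin 8)
    (h : ∀ T : Finset (Fin 8), (N j).IsBase (T : Set (Fin 8)) ↔
      (N j').IsBase (σ '' (T : Set (Fin 8)))) (t : Fin 8) : dgr j t = dgr j' (σ t) := by
  classical
  unfold dgr
  refine Finset.card_bij' (fun T _ => T.map σ.toEmbedding) (fun T _ => T.map σ.symm.toEmbedding)
    ?_ ?_ ?_ ?_
  · intro T hT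
    simp only [mem_filter, mem_univ, true_and, mem_map_equiv, Equiv.symm_apply_apply] at hT ⊢
    refine ⟨hT.1, ?_⟩
    have h1 := (h T).1 ((N_isBase j T).2 hT.2)
    have h2 : σ '' (T : Set (Fin 8)) = ((T.map σ.toEmbedding : Finset (Fin 8)) : Set (Fin 8)) := by
      rw [coe_map]
      rfl
    rw [h2] at h1
    exact (N_isBase j' _).1 h1
  · intro T hT
    simp only [mem_filter, mem_univ, true_and, mem_map_equiv, Equiv.symm_symm] at hT ⊢
    refine ⟨hT.1, ?_⟩
    have h1 := (h (T.map σ.symm.toEmbedding))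
    have h2 : σ '' ((T.map σ.symm.toEmbedding : Finset (Fin 8)) : Set (Fin 8)) =
        (T : Set (Fin 8)) := by
      rw [coe_map]
      ext x
      simp
    rw [h2] at h1
    exact (N_isBase j _).1 (h1.2 ((N_isBase j' T).2 hT.2))
  · intro T hT
    ext x
    simp
  · intro T hT
    ext x
    simp

/-- **The seven matroids are pairwise not isomorphic.** -/
theorem copy_unique {α : Type*} {M : Matroid α} {j j' : Fin 7} (h : IsCopy (N j) M)
    (h' : IsCopy (N j') M) : j = j' := by
  obtain ⟨φ, hφ, rfl⟩ := h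
  obtain ⟨ψ, hψ, hM⟩ := h'
  have hE : Set.range φ = Set.range ψ := by
    have h1 := congrArg Matroid.E hM
    rw [map_ground, map_ground] at h1
    have h2 : (N j).E = Set.univ := rfl
    have h3 : (N j').E = Set.univ := rfl
    rwa [h2, h3, Set.image_univ, Set.image_univ] at h1
  have hex : ∀ t : Fin 8, ∃ s : Fin 8, ψ s = φ t := by
    intro t
    have : φ t ∈ Set.range ψ := hE ▸ ⟨t, rfl⟩
    exact this
  choose s hs using hex
  have hsi : Function.Injective s := by
    intro t t' htt
    apply hφ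
    rw [← hs, ← hs, htt]
  let σ : Fin 8 ≃ Fin 8 := Equiv.ofBijective s (Finite.injective_iff_bijective.1 hsi)
  have hσ : ∀ T : Finset (Fin 8), (N j).IsBase (T : Set (Fin 8)) ↔
      (N j').IsBase (σ '' (T : Set (Fin 8))) := by
    intro T
    have h1 : ((N j).map φ hφ.injOn).IsBase (φ '' (T : Set (Fin 8))) ↔
        (N j).IsBase (T : Set (Fin 8)) := by
      rw [map_isBase_iff]
      constructor
      · rintro ⟨T', hT', h2⟩
        rw [hφ.image_injective h2]
        exact hT'
      · intro h2
        exact ⟨_, h2, rfl⟩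
    have h2 : φ '' (T : Set (Fin 8)) = ψ '' (σ '' (T : Set (Fin 8))) := by
      rw [Set.image_image]
      refine Set.image_congr fun t _ => ?_
      exact (hs t).symm
    rw [← h1, hM, h2, map_isBase_iff]
    constructor
    · rintro ⟨T', hT', h3⟩
      rw [hψ.image_injective h3]
      exact hT'
    · intro h3
      exact ⟨_, h3, rfl⟩
  apply inv3_inj
  unfold inv3
  rw [← Equiv.sum_comp σ (fun t => dgr j' t ^ 3)]
  exact Finset.sum_congr rfl fun t _ => by rw [dgr_perm σ hσ t]

end Pool.Agent.H59.Ray
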