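import Pool.Agent.H59.Ray.Rep

/-!
# Linear matroids, representability of minors and of copies (MP_934449_co)
-/

set_option autoImplicit false

namespace Pool.Agent.H59.Ray

open Finset Pool.Agent.H55.Ray Pool.Agent.H75.Ray Matroid

/-- exchange -/
theorem lin_aug {α K V : Type*} [Finite α] [Field K] [AddCommGroup V] [Module K V] (v : α → V)
    {I J : Set α} (hI : LinearIndepOn K v I) (hJ : LinearIndepOn K v J) (h : I.ncard < J.ncard) :
    ∃ e ∈ J, e ∉ I ∧ LinearIndepOn K v (insert e I) := by
  classical
  by_contra hcon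
  push Not at hcon
  haveI : Fintype J := Fintype.ofFinite J
  haveI : Fintype (v '' I) := Fintype.ofFinite _
  have h1 : Set.range (fun j : J => v j) ⊆ Submodule.span K (v '' I) := by
    rintro x ⟨j, rfl⟩
    by_cases hj : (j : α) ∈ I
    · exact Submodule.subset_span ⟨j, hj, rfl⟩
    · by_contra hx
      exact hcon j j.2 hj ((linearIndepOn_insert hj).2 ⟨hI, hx⟩)
  have h2 := linearIndependent_le_span_aux' (fun j : J => v j) hJ (v '' I) h1
  have h3 : Fintype.card J = J.ncard := by
    rw [Set.ncard_eq_toFinset_card' J, Set.toFinset_card]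
  have h4 : Fintype.card (v '' I) ≤ I.ncard := by
    rw [← Set.toFinset_card, ← Set.ncard_eq_toFinset_card']
    exact Set.ncard_image_le (Set.toFinite I)
  omega

/-- **The linear matroid of a family of vectors.** A set is independent iff its vectors are linearly
independent. -/
def linMat {α V : Type*} (K : Type*) [Finite α] [Field K] [AddCommGroup V] [Module K V]
    (v : α → V) : Matroid α :=
  (IndepMatroid.ofFinite (E := Set.univ) Set.finite_univ (fun I => LinearIndepOn K v I)
    (linearIndepOn_empty K v) (fun _ _ hJ h => hJ.mono h) (fun _ _ hI hJ h => lin_aug v hI hJ h)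
    fun I _ => Set.subset_univ I).matroid

theorem linMat_indep {α V : Type*} {K : Type*} [Finite α] [Field K] [AddCommGroup V] [Module K V]
    {v : α → V} {I : Set α} : (linMat K v).Indep I ↔ LinearIndepOn K v I := by
  unfold linMat
  rw [IndepMatroid.matroid_indep_iff, IndepMatroid.ofFinite_indep]

theorem linMat_ground {α V : Type*} {K : Type*} [Finite α] [Field K] [AddCommGroup V]
    [Module K V] {v : α → V} : (linMat K v).E = Set.univ := rfl

/-- representability in a finite dimensional space -/
theorem isRepr_of {α V K : Type*} [Field K] [AddCommGroup V] [Module K V] [Module.Finite K V]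
    {M : Matroid α} (v : α → V) (h : ∀ I : Set α, M.Indep I ↔ I ⊆ M.E ∧ LinearIndepOn K v I) :
    IsRepr K M := by
  refine ⟨Module.finrank K V, fun a => (Module.finBasis K V).equivFun (v a), fun I => ?_⟩
  rw [h I]
  refine and_congr_right fun _ => ?_
  exact (LinearMap.linearIndependent_iff
    ((Module.finBasis K V).equivFun : V →ₗ[K] (Fin (Module.finrank K V) → K))
    (LinearEquiv.ker _)).symm

theorem isRepr_linMat {α V : Type*} {K : Type*} [Finite α] [Field K] [AddCommGroup V]
    [Module K V] [Module.Finite K V] (v : α → V) : IsRepr K (linMat K v) :=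
  isRepr_of v fun I => by
    rw [linMat_indep, linMat_ground]
    exact (and_iff_right (Set.subset_univ I)).symm

theorem isRepr_ring {α K L : Type*} [Field K] [Field L] (θ : K ≃+* L) {M : Matroid α}
    (hr : IsRepr K M) : IsRepr L M := by
  obtain ⟨n, v, hv⟩ := hr
  refine ⟨n, fun a j => θ (v a j), fun I => ?_⟩
  rw [hv I]
  refine and_congr_right fun _ => ?_
  exact (li_ring_iff θ (x := fun i : I => v i)).symm

theorem isRepr_delete {α K : Type*} [Field K] {M : Matroid α} (hr : IsRepr K M) (D : Set α) :
    IsRepr K (M ＼ D) := by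
  obtain ⟨n, v, hv⟩ := hr
  refine ⟨n, v, fun I => ?_⟩
  rw [delete_indep_iff, hv I, delete_ground, Set.subset_sdiff]
  tauto

theorem isRepr_contract {α K : Type*} [Field K] {M : Matroid α} (hr : IsRepr K M) {e : α}
    (he : M.IsNonloop e) : IsRepr K (M ／ {e}) := by
  obtain ⟨n, v, hv⟩ := hr
  have he1 : M.Indep {e} := he.indep
  have hee := ((hv _).1 he1).2
  refine isRepr_of (fun a => (Submodule.span K (v '' {e})).mkQ (v a)) fun I => ?_
  rw [he1.contract_indep_iff, hv, contract_ground, Set.subset_sdiff]
  constructor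
  · rintro ⟨h1, h2, h3⟩
    refine ⟨⟨fun a ha => h2 (Set.mem_union_left _ ha), h1⟩, ?_⟩
    rw [Set.union_comm] at h3
    exact ((linearIndepOn_union_iff_quotient h1.symm).1 h3).2
  · rintro ⟨⟨h1, h2⟩, h3⟩
    refine ⟨h2, Set.union_subset h1 he1.subset_ground, ?_⟩
    rw [Set.union_comm]
    exact (linearIndepOn_union_iff_quotient h2.symm).2 ⟨hee, h3⟩

theorem isRepr_map {α β K : Type*} [Field K] {M : Matroid α} (hr : IsRepr K M) {φ : α → β}
    (hφ : Function.Injective φ) : IsRepr K (M.map φ hφ.injOn) := by
  classical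
  obtain ⟨n, v, hv⟩ := hr
  refine ⟨n, Function.extend φ v 0, fun I => ?_⟩
  rw [map_indep_iff, map_ground]
  constructor
  · rintro ⟨J, hJ, rfl⟩
    rw [hv] at hJ
    refine ⟨Set.image_mono hJ.1, ?_⟩
    refine LinearIndepOn.image_of_comp φ _ ?_
    rw [Function.extend_comp hφ]
    exact hJ.2
  · rintro ⟨h1, h2⟩
    obtain ⟨J, hJ, rfl⟩ := Set.subset_image_iff.1 h1
    refine ⟨J, ?_, rfl⟩
    rw [hv]
    refine ⟨hJ, ?_⟩
    have h3 := h2.comp_of_image hφ.injOn
    rw [Function.extend_comp hφ] at h3
    exact h3

end Pool.Agent.H59.Ray
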