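import Pool.Agent.H59.Ray.Inv
import Pool.Agent.H75.Ray.Lab

/-!
# The excluded minors with at most 8 elements (MP_934449_co)

`IsExcl K M`: `M` is an excluded minor for the class of the `K`-representable Rayleigh matroids.
-/

set_option autoImplicit false

namespace Pool.Agent.H59.Ray

open Finset Pool.Agent.H55.Ray Matroid

/-- `M` is in the class: `K`-representable and Rayleigh. -/
def InClass (K : Type*) [Field K] {α : Type*} [Fintype α] (M : Matroid α) : Prop :=
  IsRepr K M ∧ IsRayleigh M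

/-- **`M` is an excluded minor for the class of the `K`-representable Rayleigh matroids**: `M` is
not in the class, every single element deletion and every single element contraction is. -/
def IsExcl (K : Type*) [Field K] {α : Type*} [Fintype α] (M : Matroid α) : Prop :=
  ¬ InClass K M ∧ ∀ e ∈ M.E, InClass K (M ＼ {e}) ∧ InClass K (M ／ {e})

/-- the numbers of the seven lists in the list of the 124 representatives -/
def badI : Fin 7 → ℕ := ![48, 49, 58, 68, 78, 91, 103]

theorem badI_eq : ∀ j : Fin 7, reps8.getD (badI j) [] = sevenL j := by decide +kernel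

/-- all certificates -/
def AllGood : Prop := ∀ i < 124, (∀ j : Fin 7, i ≠ badI j) →
  ∃ (cl : List ℕ) (xs : List Pool.Agent.H75.Ray.Entry),
    Pool.Agent.H75.Ray.okE isB (i, cl, xs) = true

theorem isRepr_contract_all {α K : Type*} [Field K] {M : Matroid α} (hr : IsRepr K M) {e : α}
    (he : e ∈ M.E) : IsRepr K (M ／ {e}) := by
  rcases M.isLoop_or_isNonloop e with h | h
  · rw [contract_eq_delete_of_subset_loops (Set.singleton_subset_iff.2 h)]
    exact isRepr_delete hr _
  · exact isRepr_contract hr h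

theorem minor_ncard {α : Type*} [Fintype α] {M : Matroid α} (h8 : M.E.ncard ≤ 8) {e : α}
    (he : e ∈ M.E) : (M.E \ {e}).ncard ≤ 7 := by
  have := Set.ncard_sdiff_singleton_add_one he (Set.toFinite _)
  omega

/-- all proper minors are Rayleigh -/
theorem minor_ray {α : Type*} [Fintype α] {M : Matroid α} (h8 : M.E.ncard ≤ 8) {e : α}
    (he : e ∈ M.E) : IsRayleigh (M ＼ {e}) ∧ IsRayleigh (M ／ {e}) :=
  ⟨Pool.Agent.H75.Ray.isRayleigh_of_ncard_le_seven _ (minor_ncard h8 he),
    Pool.Agent.H75.Ray.isRayleigh_of_ncard_le_seven _ (minor_ncard h8 he)⟩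

/-- **a quaternary matroid with at most 8 elements is Rayleigh or one of the seven** -/
theorem ray_or_copy (hG : AllGood) {α : Type*} [Fintype α] {K : Type*} [Field K] [Fintype K]
    (hK : Fintype.card K = 4) (M : Matroid α) (h8 : M.E.ncard ≤ 8) (hr : IsRepr K M)
    (hn : ¬ IsRayleigh M) : ∃ j : Fin 7, IsCopy (N j) M := by
  by_cases hS : Pool.Agent.H75.Ray.SimpleFourEight M
  · obtain ⟨i, hi, φ, hφ, hrng, hb⟩ := exists_rep hK M hS hr
    by_cases hj : ∃ j : Fin 7, i = badI j
    · obtain ⟨j, rfl⟩ := hj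
      refine ⟨j, ?_⟩
      have h : ∀ j : Fin 7, ∃ T₀ : Finset (Fin 8), T₀.card = 4 ∧
          isBS (sevenL j) (msk T₀) = true := by decide +kernel
      obtain ⟨T₀, h1, h2⟩ := h j
      refine IsCopy.of h1 h2 hφ hrng fun T => ?_
      rw [hb T]
      unfold isB
      rw [badI_eq]
    · push Not at hj
      obtain ⟨cl, xs, hok⟩ := hG i hi hj
      exact absurd (Pool.Agent.H75.Ray.isRayleigh_of_okE hok hφ hrng hb) hn
  · exact absurd (Pool.Agent.H75.Ray.isRayleigh_of_ncard_le_eight M h8 hS) hn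

/-- copies of the seven matroids are excluded minors -/
theorem copy_excl {α : Type*} [Fintype α] {K : Type*} [Field K] [Fintype K]
    (hK : Fintype.card K = 4) {M : Matroid α} {j : Fin 7} (h : IsCopy (N j) M) :
    IsRepr K M ∧ M.E.ncard = 8 ∧ IsExcl K M := by
  obtain ⟨φ, hφ, rfl⟩ := h
  have hr : IsRepr K ((N j).map φ hφ.injOn) := by
    refine isRepr_map ?_ hφ
    have θ : F4 ≃+* K := FiniteField.ringEquivOfCardEq (F4.card.trans hK.symm)
    exact isRepr_ring θ (isRepr_linMat _)
  have h8 : ((N j).map φ hφ.injOn).E.ncard = 8 := by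
    rw [map_ground]
    have h1 : (N j).E = Set.univ := rfl
    rw [h1, Set.ncard_image_of_injective _ hφ, Set.ncard_univ]
    simp
  refine ⟨hr, h8, fun hc => ?_, fun e he => ?_⟩
  · have h2 := (Pool.Agent.H75.Ray.isRayleigh_map (N j) φ hφ.injOn).1 hc.2
    exact N_not j h2
  · have h3 := minor_ray h8.le he
    exact ⟨⟨isRepr_delete hr _, h3.1⟩, ⟨isRepr_contract_all hr he, h3.2⟩⟩

/-- the main theorem, with the certificates as a hypothesis -/
theorem main (hG : AllGood) {α : Type*} [Fintype α] {K : Type*} [Field K] [Fintype K]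
    (hK : Fintype.card K = 4) (M : Matroid α) (h8 : M.E.ncard ≤ 8) :
    IsExcl K M ↔ (¬ IsRepr K M ∧ ∀ e ∈ M.E, IsRepr K (M ＼ {e}) ∧ IsRepr K (M ／ {e})) ∨
      ∃ j : Fin 7, IsCopy (N j) M := by
  constructor
  · rintro ⟨h1, h2⟩
    by_cases hr : IsRepr K M
    · exact Or.inr (ray_or_copy hG hK M h8 hr fun h => h1 ⟨hr, h⟩)
    · exact Or.inl ⟨hr, fun e he => ⟨(h2 e he).1.1, (h2 e he).2.1⟩⟩
  · rintro (⟨h1, h2⟩ | ⟨j, hj⟩)
    · refine ⟨fun h => h1 h.1, fun e he => ?_⟩
      have h3 := minor_ray h8 he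
      exact ⟨⟨(h2 e he).1, h3.1⟩, ⟨(h2 e he).2, h3.2⟩⟩
    · exact (copy_excl hK hj).2.2

end Pool.Agent.H59.Ray
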