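import Pool.Agent.H59.Ray.Eight
import Pool.Agent.H75.Ray.Par

/-!
# Every simple quaternary matroid of rank 4 with 8 elements is one of 124 (MP_934449_co)

`exists_rep`: for a field `K` with 4 elements and a `K`-representable matroid `M` with
`SimpleFourEight M` there is a labelling of the elements by `Fin 8` such that the bases are given by
the determinants of one of the 124 lists `reps8`.
-/

set_option autoImplicit false

namespace Pool.Agent.H59.Ray

open Finset Pool.Agent.H55.Ray Pool.Agent.H75.Ray

/-- the mask of a set -/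
def msk (T : Finset (Fin 8)) : ℕ := ∑ t ∈ T, 2 ^ (t : ℕ)

/-- the list of the bits of a mask -/
def bits (m : ℕ) : List (Fin 8) := (List.finRange 8).filter fun t => m.testBit (t : ℕ)

/-- the four vectors given by the mask `m` are independent -/
def isBS (S : List ℕ) (m : ℕ) : Bool :=
  match bits m with
  | [p, q, r, s] => det4 (dc (S.getD p 0)) (dc (S.getD q 0)) (dc (S.getD r 0))
      (dc (S.getD s 0)) != F4.z
  | _ => false

/-- the bases of the `i`-th matroid -/
def isB (i m : ℕ) : Bool := isBS (reps8.getD i []) m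

theorem bits_msk : ∀ T : Finset (Fin 8), (bits (msk T)).toFinset = T ∧ (bits (msk T)).Nodup := by
  decide +kernel

/-! ### change of the field -/

theorem li_ring {ι K L : Type*} [Field K] [Field L] (θ : K ≃+* L) {n : ℕ} {x : ι → Fin n → K}
    (h : LinearIndependent K x) : LinearIndependent L fun i j => θ (x i j) := by
  let j : (Fin n → K) →+ (Fin n → L) :=
    { toFun := fun y k => θ (y k)
      map_zero' := by
        funext k
        exact θ.map_zero
      map_add' := fun y z => by
        funext k
        exact θ.map_add _ _ }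
  refine h.map_of_injective_injective (θ.symm : L → K) j ?_ ?_ ?_
  · intro r hr
    exact (map_eq_zero θ.symm).1 hr
  · intro m hm
    funext k
    exact (map_eq_zero θ).1 (congrFun hm k)
  · intro r m
    funext k
    show θ (θ.symm r * m k) = r * θ (m k)
    rw [map_mul, RingEquiv.apply_symm_apply]

theorem li_ring_iff {ι K L : Type*} [Field K] [Field L] (θ : K ≃+* L) {n : ℕ}
    {x : ι → Fin n → K} :
    LinearIndependent L (fun i j => θ (x i j)) ↔ LinearIndependent K x := by
  refine ⟨fun h => ?_, li_ring θ⟩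
  have h1 := li_ring θ.symm h
  simpa using h1

theorem isRepr_F4 {α : Type*} {K : Type*} [Field K] [Fintype K] (hK : Fintype.card K = 4)
    {M : Matroid α} (hr : IsRepr K M) : IsRepr F4 M := by
  obtain ⟨n, v, hv⟩ := hr
  have θ : K ≃+* F4 := FiniteField.ringEquivOfCardEq (hK.trans F4.card.symm)
  refine ⟨n, fun a j => θ (v a j), fun I => ?_⟩
  rw [hv I]
  refine and_congr_right fun _ => ?_
  exact (li_ring_iff θ (x := fun i : I => v i)).symm

/-! ### coordinates -/

/-- coordinates with respect to a base -/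
theorem exists_coord {α : Type*} {M : Matroid α} (hM4 : ∀ B, M.IsBase B → B.ncard = 4)
    (hr : IsRepr F4 M) : ∃ c : α → T4, (∀ (ι : Type) (x : ι → α), (∀ i, x i ∈ M.E) →
      Function.Injective x → (M.Indep (Set.range x) ↔ LinearIndependent F4 fun i => c (x i))) ∧
      ∃ b : Fin 4 → α, Function.Injective b ∧ M.IsBase (Set.range b) := by
  classical
  obtain ⟨n, v, hv⟩ := hr
  obtain ⟨B, hB⟩ := M.exists_isBase
  have hBc := hM4 B hB
  obtain ⟨b, hbi, hbB⟩ : ∃ b : Fin 4 → α, Function.Injective b ∧ Set.range b = B := by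
    have hfin : B.Finite := Set.finite_of_ncard_ne_zero (by rw [hBc]; norm_num)
    haveI := hfin.fintype
    have hc : Fintype.card B = 4 := by
      rw [← hBc, Set.ncard_eq_toFinset_card' B, Set.toFinset_card]
    let e := (Fintype.equivFinOfCardEq hc).symm
    refine ⟨fun i => (e i : α), fun i j h => e.injective (Subtype.ext h), ?_⟩
    ext a
    constructor
    · rintro ⟨i, rfl⟩
      exact (e i).2
    · intro ha
      exact ⟨e.symm ⟨a, ha⟩, by simp⟩
  have hind := (hv B).1 hB.indep
  have hli : LinearIndependent F4 (v ∘ b) := by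
    rw [← linearIndepOn_range_iff hbi v, hbB]
    exact hind.2
  let W : Submodule F4 (Fin n → F4) := Submodule.span F4 (Set.range (v ∘ b))
  let E : Module.Basis (Fin 4) F4 W := Module.Basis.span hli
  let g : W ≃ₗ[F4] T4 := E.equivFun.trans coe.symm
  have hW : ∀ a ∈ M.E, v a ∈ W := by
    intro a ha
    by_cases haB : a ∈ B
    · rw [← hbB] at haB
      obtain ⟨i, rfl⟩ := haB
      exact Submodule.subset_span ⟨i, rfl⟩
    · by_contra hcon
      have h1 : LinearIndepOn F4 v (insert a B) := by
        rw [linearIndepOn_insert haB]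
        refine ⟨hind.2, ?_⟩
        have h2 : v '' B = Set.range (v ∘ b) := by
          rw [← hbB, Set.range_comp]
        rw [h2]
        exact hcon
      have h3 : M.Indep (insert a B) := (hv _).2 ⟨Set.insert_subset ha hB.subset_ground, h1⟩
      have h4 := hB.eq_of_subset_indep h3 (Set.subset_insert a B)
      exact haB (h4 ▸ Set.mem_insert a B)
  refine ⟨fun a => if h : v a ∈ W then g ⟨v a, h⟩ else 0, ?_, b, hbi, hbB ▸ hB⟩
  intro ι x hx hxi
  have h1 : M.Indep (Set.range x) ↔ LinearIndependent F4 (v ∘ x) := by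
    rw [hv, linearIndepOn_range_iff hxi v]
    exact and_iff_right (by
      rintro a ⟨i, rfl⟩
      exact hx i)
  have h2 : (fun i => if h : v (x i) ∈ W then g ⟨v (x i), h⟩ else 0) =
      (g : W →ₗ[F4] T4) ∘ fun i => (⟨v (x i), hW _ (hx i)⟩ : W) := by
    funext i
    rw [dif_pos (hW _ (hx i))]
    rfl
  rw [h1, h2, LinearMap.linearIndependent_iff (g : W →ₗ[F4] T4) (LinearEquiv.ker g)]
  have h3 : v ∘ x = W.subtype ∘ fun i => (⟨v (x i), hW _ (hx i)⟩ : W) := rfl
  rw [h3, LinearMap.linearIndependent_iff W.subtype (Submodule.ker_subtype W)]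

/-! ### the representatives -/

theorem reps_nodup : ∀ S ∈ reps8, (S.map dc).Nodup ∧ S.length = 8 := by decide +kernel

theorem reps_length : reps8.length = 124 := by decide +kernel

private theorem li_det {S : List ℕ} {p q r t : Fin 8} {φ : T4 → T4} {x : Fin 8 → T4}
    (hx : ∀ i : Fin 8, φ (x i) = dc (S.getD i 0)) (hφ : Col φ) :
    LinearIndependent F4 (fun k : Fin 4 => x (![p, q, r, t] k)) ↔
      det4 (dc (S.getD p 0)) (dc (S.getD q 0)) (dc (S.getD r 0)) (dc (S.getD t 0)) ≠ 0 := by
  rw [← hφ (Fin 4), li_iff]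
  show det4 (φ (x p)) (φ (x q)) (φ (x r)) (φ (x t)) ≠ 0 ↔ _
  rw [hx, hx, hx, hx]

/-- **every simple quaternary matroid of rank 4 with 8 elements is one of 124** -/
theorem exists_rep {α : Type*} [Fintype α] {K : Type*} [Field K] [Fintype K]
    (hK : Fintype.card K = 4) (M : Matroid α) (hM : SimpleFourEight M) (hr : IsRepr K M) :
    ∃ i < 124, ∃ φ : Fin 8 → α, Function.Injective φ ∧ Set.range φ = M.E ∧
      ∀ T : Finset (Fin 8), M.IsBase (φ '' (T : Set (Fin 8))) ↔
        T.card = 4 ∧ isB i (msk T) = true := by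
  classical
  obtain ⟨h8, h4, hnl, hpar⟩ := hM
  obtain ⟨c, hc, b, hbi, hb⟩ := exists_coord h4 (isRepr_F4 hK hr)
  have hbE : ∀ i, b i ∈ M.E := fun i => hb.subset_ground ⟨i, rfl⟩
  -- normalised coordinates
  have hnc : ∀ (ι : Type) (x : ι → α), (∀ i, x i ∈ M.E) → Function.Injective x →
      (M.Indep (Set.range x) ↔ LinearIndependent F4 fun i => nm (c (x i))) := fun ι x hx hxi =>
    (hc ι x hx hxi).trans (col_nm ι fun i => c (x i)).symm
  have hne : ∀ a ∈ M.E, nm (c a) ≠ 0 := by
    intro a ha
    have h1 := (hnc Unit (fun _ => a) (fun _ => ha) (fun _ _ _ => rfl)).1 (by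
      rw [Set.range_const]
      exact (hnl a ha).indep)
    rw [linearIndependent_unique_iff] at h1
    exact h1
  have hinj : ∀ a ∈ M.E, ∀ a' ∈ M.E, nm (c a) = nm (c a') → a = a' := by
    intro a ha a' ha' heq
    by_contra hne'
    have hx : Function.Injective ![a, a'] := by
      intro i j hij
      fin_cases i <;> fin_cases j <;> first | rfl | exact absurd hij hne' |
        exact absurd hij.symm hne'
    have h1 := (hnc (Fin 2) ![a, a'] (by
      intro i
      fin_cases i
      · exact ha
      · exact ha') hx).1 (by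
      have h2 : Set.range ![a, a'] = {a, a'} := by
        rw [Matrix.range_cons, Matrix.range_cons, Matrix.range_empty, Set.union_empty]
        rfl
      rw [h2]
      exact hpar a ha a' ha' hne')
    have h2 : (0 : Fin 2) = 1 := h1.injective heq
    exact absurd h2 (by decide)
  -- the set of points
  set X : Finset T4 := (univ.filter fun a => a ∈ M.E).image fun a => nm (c a) with hX
  have hEc : (univ.filter fun a => a ∈ M.E).card = 8 := by
    rw [← h8, Set.ncard_eq_toFinset_card']
    congr 1
    ext a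
    simp
  have hXc : X.card = 8 := by
    rw [hX, card_image_of_injOn, hEc]
    intro a ha a' ha' heq
    exact hinj a (mem_filter.1 ha).2 a' (mem_filter.1 ha').2 heq
  obtain ⟨φ, hφ, hφn, S, hS, hXS⟩ := claim_eight X hXc (by
    intro x hx
    obtain ⟨a, ha, rfl⟩ := mem_image.1 hx
    exact ⟨nm_nm _, hne a (mem_filter.1 ha).2⟩)
    ⟨fun i => nm (c (b i)), (hnc (Fin 4) b hbE hbi).1 hb.indep, fun i =>
      mem_image.2 ⟨b i, mem_filter.2 ⟨mem_univ _, hbE i⟩, rfl⟩⟩
  obtain ⟨i, hi, hiS⟩ := List.mem_iff_getElem.1 hS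
  rw [reps_length] at hi
  obtain ⟨hnd, hlen⟩ := reps_nodup S hS
  -- the labelling
  have hlab : ∀ t : Fin 8, ∃ a ∈ M.E, φ (nm (c a)) = dc (S.getD t 0) := by
    intro t
    have ht : (t : ℕ) < S.length := by rw [hlen]; exact t.2
    have h1 : dc (S.getD t 0) ∈ LS S := by
      rw [mem_LS, List.getD_eq_getElem _ _ ht]
      exact List.mem_map_of_mem (List.getElem_mem ht)
    rw [← hXS] at h1
    obtain ⟨x, hx, hxe⟩ := mem_image.1 h1
    obtain ⟨a, ha, rfl⟩ := mem_image.1 hx
    exact ⟨a, (mem_filter.1 ha).2, hxe⟩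
  choose ℓ hℓE hℓ using hlab
  have hℓi : Function.Injective ℓ := by
    intro s t hst
    have hs : (s : ℕ) < (S.map dc).length := by rw [List.length_map, hlen]; exact s.2
    have ht : (t : ℕ) < (S.map dc).length := by rw [List.length_map, hlen]; exact t.2
    have h1 := hℓ s
    rw [hst, hℓ t] at h1
    have hs' : (s : ℕ) < S.length := by rw [hlen]; exact s.2
    have ht' : (t : ℕ) < S.length := by rw [hlen]; exact t.2
    rw [List.getD_eq_getElem _ _ hs', List.getD_eq_getElem _ _ ht'] at h1
    have h2 : (S.map dc)[(t : ℕ)] = (S.map dc)[(s : ℕ)] := by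
      rw [List.getElem_map, List.getElem_map]
      exact h1
    exact Fin.ext ((hnd.getElem_inj_iff).1 h2).symm
  refine ⟨i, hi, ℓ, hℓi, ?_, ?_⟩
  · refine Set.eq_of_subset_of_ncard_le ?_ ?_ (Set.toFinite _)
    · rintro a ⟨t, rfl⟩
      exact hℓE t
    · rw [h8, ← Set.image_univ, Set.ncard_image_of_injective _ hℓi, Set.ncard_univ]
      simp
  · intro T
    have hTc : (ℓ '' (T : Set (Fin 8))).ncard = T.card := by
      rw [Set.ncard_image_of_injective _ hℓi, Set.ncard_coe_finset]
    have hbase : M.IsBase (ℓ '' (T : Set (Fin 8))) ↔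
        T.card = 4 ∧ M.Indep (ℓ '' (T : Set (Fin 8))) := by
      constructor
      · intro h
        exact ⟨hTc.symm.trans (h4 _ h), h.indep⟩
      · rintro ⟨hT4, hT⟩
        obtain ⟨B, hB, hTB⟩ := hT.exists_isBase_superset
        have hfin : B.Finite := Set.finite_of_ncard_ne_zero (by rw [h4 B hB]; norm_num)
        have := Set.eq_of_subset_of_ncard_le hTB (by rw [h4 B hB, hTc, hT4]) hfin
        rw [this]
        exact hB
    rw [hbase]
    refine and_congr_right fun hT4 => ?_
    obtain ⟨hbT, hbN⟩ := bits_msk T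
    have hlen4 : (bits (msk T)).length = 4 := by
      rw [← List.toFinset_card_of_nodup hbN, hbT, hT4]
    have hget : reps8.getD i [] = S := by
      rw [List.getD_eq_getElem _ _ (by rw [reps_length]; exact hi)]
      exact hiS
    unfold isB isBS
    rw [hget]
    rcases hbits : bits (msk T) with _ | ⟨p, _ | ⟨q, _ | ⟨r, _ | ⟨s, _ | ⟨u, l⟩⟩⟩⟩⟩
    · rw [hbits] at hlen4; simp at hlen4
    · rw [hbits] at hlen4; simp at hlen4
    · rw [hbits] at hlen4; simp at hlen4
    · rw [hbits] at hlen4; simp at hlen4
    · simp only [bne_iff_ne]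
      rw [hbits] at hbT hbN
      have hxinj : Function.Injective ![p, q, r, s] := by
        have h1 := List.nodup_ofFn (f := ![p, q, r, s])
        have h2 : List.ofFn ![p, q, r, s] = [p, q, r, s] := by simp
        rw [h2] at h1
        exact h1.1 hbN
      have hrange : ℓ '' (T : Set (Fin 8)) = Set.range (fun k : Fin 4 => ℓ (![p, q, r, s] k)) := by
        rw [← hbT]
        ext a
        simp only [Set.mem_image, Set.mem_range, List.coe_toFinset, Set.mem_ofPred_eq,
          List.mem_cons, List.not_mem_nil, or_false]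
        constructor
        · rintro ⟨t, ht, rfl⟩
          rcases ht with rfl | rfl | rfl | rfl
          · exact ⟨0, rfl⟩
          · exact ⟨1, rfl⟩
          · exact ⟨2, rfl⟩
          · exact ⟨3, rfl⟩
        · rintro ⟨k, rfl⟩
          refine ⟨_, ?_, rfl⟩
          fin_cases k
          · exact Or.inl rfl
          · exact Or.inr (Or.inl rfl)
          · exact Or.inr (Or.inr (Or.inl rfl))
          · exact Or.inr (Or.inr (Or.inr rfl))
      rw [hrange, hnc (Fin 4) (fun k => ℓ (![p, q, r, s] k)) (fun k => hℓE _)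
        (hℓi.comp hxinj)]
      exact li_det (x := fun t => nm (c (ℓ t))) hℓ hφ
    · rw [hbits] at hlen4; simp at hlen4

end Pool.Agent.H59.Ray
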