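import Pool.Agent.H59.Ray.Lin

/-!
# The seven matroids (MP_934449_co)

`N j`, `j : Fin 7`: the linear matroids over `F4` of seven lists of 8 vectors; they are not
Rayleigh.
-/

set_option autoImplicit false

namespace Pool.Agent.H59.Ray

open Finset Pool.Agent.H55.Ray Pool.Agent.H75.Ray Matroid

/-- the vectors of a list of codes -/
def vec (S : List ℕ) (t : Fin 8) : T4 := dc (S.getD t 0)

/-- the seven lists -/
def sevenL : Fin 7 → List ℕ :=
  ![[1, 4, 5, 16, 17, 64, 65, 84], [1, 4, 5, 16, 17, 64, 65, 89], [1, 4, 5, 16, 17, 64, 73, 84],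
    [1, 4, 5, 16, 17, 64, 84, 149], [1, 4, 5, 16, 25, 64, 73, 81], [1, 4, 5, 16, 25, 64, 81, 101],
    [1, 4, 5, 16, 64, 81, 100, 148]]

/-- **The seven matroids.** -/
def N (j : Fin 7) : Matroid (Fin 8) := linMat F4 (vec (sevenL j))

theorem col_id : Col fun x => x := fun _ _ => Iff.rfl

/-- independence of four of the vectors -/
theorem indep_iff_isBS {S : List ℕ} {T : Finset (Fin 8)} (hT : T.card = 4) :
    LinearIndepOn F4 (vec S) (T : Set (Fin 8)) ↔ isBS S (msk T) = true := by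
  obtain ⟨hbT, hbN⟩ := bits_msk T
  have hlen4 : (bits (msk T)).length = 4 := by
    rw [← List.toFinset_card_of_nodup hbN, hbT, hT]
  unfold isBS
  rcases hbits : bits (msk T) with _ | ⟨p, _ | ⟨q, _ | ⟨r, _ | ⟨s, _ | ⟨u, l⟩⟩⟩⟩⟩
  · rw [hbits] at hlen4; simp at hlen4
  · rw [hbits] at hlen4; simp at hlen4
  · rw [hbits] at hlen4; simp at hlen4
  · rw [hbits] at hlen4; simp at hlen4
  · simp only [bne_iff_ne]
    rw [hbits] at hbT hbN
    have hxinj : Function.Injective ![p, q, r, s] := by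
      have h1 := List.nodup_ofFn (f := ![p, q, r, s])
      have h2 : List.ofFn ![p, q, r, s] = [p, q, r, s] := by simp
      rw [h2] at h1
      exact h1.1 hbN
    have hrange : (T : Set (Fin 8)) = Set.range ![p, q, r, s] := by
      rw [← hbT]
      ext a
      simp only [Set.mem_range, List.coe_toFinset, Set.mem_ofPred_eq,
        List.mem_cons, List.not_mem_nil, or_false]
      constructor
      · rintro (rfl | rfl | rfl | rfl)
        · exact ⟨0, rfl⟩
        · exact ⟨1, rfl⟩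
        · exact ⟨2, rfl⟩
        · exact ⟨3, rfl⟩
      · rintro ⟨k, rfl⟩
        fin_cases k
        · exact Or.inl rfl
        · exact Or.inr (Or.inl rfl)
        · exact Or.inr (Or.inr (Or.inl rfl))
        · exact Or.inr (Or.inr (Or.inr rfl))
    rw [hrange, linearIndepOn_range_iff hxinj]
    exact li_iff (vec S ∘ ![p, q, r, s])
  · rw [hbits] at hlen4; simp at hlen4

/-- the bases of the linear matroid of a list of rank 4 -/
theorem lin_isBase {S : List ℕ} {T₀ : Finset (Fin 8)} (hT₀ : T₀.card = 4)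
    (h : isBS S (msk T₀) = true) (T : Finset (Fin 8)) :
    (linMat F4 (vec S)).IsBase (T : Set (Fin 8)) ↔ T.card = 4 ∧ isBS S (msk T) = true := by
  classical
  have hle : ∀ I : Set (Fin 8), (linMat F4 (vec S)).Indep I → I.ncard ≤ 4 := by
    intro I hI
    rw [linMat_indep] at hI
    haveI : Fintype I := Fintype.ofFinite I
    have h1 := hI.fintype_card_le_finrank
    have h2 : Module.finrank F4 T4 = 4 := by
      rw [LinearEquiv.finrank_eq coe]
      simp
    rw [h2] at h1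
    rwa [Set.ncard_eq_toFinset_card' I, Set.toFinset_card]
  have hI₀ : (linMat F4 (vec S)).Indep (T₀ : Set (Fin 8)) := linMat_indep.2
    ((indep_iff_isBS hT₀).2 h)
  have hbase : ∀ J : Set (Fin 8), (linMat F4 (vec S)).Indep J → J.ncard = 4 →
      (linMat F4 (vec S)).IsBase J := by
    intro J hJ hJ4
    obtain ⟨B, hB, hJB⟩ := hJ.exists_isBase_superset
    have := Set.eq_of_subset_of_ncard_le hJB (by rw [hJ4]; exact hle B hB.indep)
      (Set.toFinite _)
    rw [this]
    exact hB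
  have hB₀ := hbase _ hI₀ (by rw [Set.ncard_coe_finset]; exact hT₀)
  constructor
  · intro hT
    have h4 : T.card = 4 := by
      have h5 := hT.ncard_eq_ncard_of_isBase hB₀
      rwa [Set.ncard_coe_finset, Set.ncard_coe_finset, hT₀] at h5
    exact ⟨h4, (indep_iff_isBS h4).1 (linMat_indep.1 hT.indep)⟩
  · rintro ⟨h4, hT⟩
    exact hbase _ (linMat_indep.2 ((indep_iff_isBS h4).2 hT))
      (by rw [Set.ncard_coe_finset]; exact h4)

theorem N_isBase (j : Fin 7) (T : Finset (Fin 8)) :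
    (N j).IsBase (T : Set (Fin 8)) ↔ T.card = 4 ∧ isBS (sevenL j) (msk T) = true := by
  have h : ∀ j : Fin 7, ∃ T₀ : Finset (Fin 8), T₀.card = 4 ∧
      isBS (sevenL j) (msk T₀) = true := by decide +kernel
  obtain ⟨T₀, h1, h2⟩ := h j
  exact lin_isBase h1 h2 T

/-- natural number weights -/
theorem basisSum_cast {M : Matroid (Fin 8)} {P : Finset (Fin 8) → Bool}
    (hP : ∀ T : Finset (Fin 8), M.IsBase (T : Set (Fin 8)) ↔ P T = true) (w : Fin 8 → ℕ)
    (U V : Finset (Fin 8)) :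
    basisSum M (fun a => (w a : ℝ)) U V =
      ((∑ T ∈ univ.filter (fun T : Finset (Fin 8) => P T = true ∧ U ⊆ T ∧ Disjoint T V),
        ∏ a ∈ T, w a : ℕ) : ℝ) := by
  classical
  unfold basisSum
  rw [Nat.cast_sum]
  refine sum_congr ?_ fun T _ => ?_
  · ext T
    simp only [mem_filter, mem_univ, true_and, hP, coe_subset, disjoint_coe]
  · rw [Nat.cast_prod]

/-- the weights for which the inequality fails -/
def wt : Fin 7 → Fin 8 → ℕ :=
  ![![1, 2, 2, 2, 2, 2, 2, 1], ![1, 2, 1, 2, 2, 2, 2, 1], ![1, 2, 2, 2, 2, 2, 1, 1],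
    ![1, 3, 3, 3, 3, 1, 1, 1], ![3, 3, 1, 1, 1, 1, 1, 1], ![3, 3, 1, 3, 1, 1, 1, 1],
    ![2, 1, 2, 2, 2, 1, 2, 2]]

/-- the pairs for which the inequality fails -/
def wp : Fin 7 → Fin 8 × Fin 8 :=
  ![(0, 7), (0, 7), (0, 7), (0, 5), (2, 7), (2, 6), (1, 5)]

/-- the basis sums with natural numbers -/
def bsN (j : Fin 7) (U V : Finset (Fin 8)) : ℕ :=
  ∑ T ∈ univ.filter (fun T : Finset (Fin 8) =>
    decide (T.card = 4 ∧ isBS (sevenL j) (msk T) = true) = true ∧ U ⊆ T ∧ Disjoint T V),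
    ∏ a ∈ T, wt j a

theorem bsN_lt : ∀ j : Fin 7, bsN j {(wp j).1} ∅ * bsN j {(wp j).2} ∅ <
    bsN j {(wp j).1, (wp j).2} ∅ * bsN j ∅ ∅ := by decide +kernel

/-- **The seven matroids are not Rayleigh.** -/
theorem N_not (j : Fin 7) : ¬ IsRayleigh (N j) := by
  intro hR
  have hne : ∀ j : Fin 7, (wp j).1 ≠ (wp j).2 := by decide
  have hpos : ∀ (j : Fin 7) (a : Fin 8), 0 < wt j a := by decide
  have h1 := hR (wp j).1 (Set.mem_univ _) (wp j).2 (Set.mem_univ _) (hne j)
    (fun a => (wt j a : ℝ)) (fun a => by exact_mod_cast hpos j a)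
  have hb : ∀ U V : Finset (Fin 8), basisSum (N j) (fun a => (wt j a : ℝ)) U V =
      (bsN j U V : ℝ) := fun U V => basisSum_cast
    (P := fun T => decide (T.card = 4 ∧ isBS (sevenL j) (msk T) = true))
    (fun T => by rw [N_isBase, decide_eq_true_eq]) (wt j) U V
  have h2 := hb {(wp j).1} ∅
  have h3 := hb {(wp j).2} ∅
  have h4 := hb {(wp j).1, (wp j).2} ∅
  have h5 := hb ∅ ∅
  simp only [coe_singleton, coe_empty, coe_insert] at h2 h3 h4 h5
  rw [h2, h3, h4, h5] at h1
  have h6 := bsN_lt j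
  have h7 : (bsN j {(wp j).1} ∅ : ℝ) * (bsN j {(wp j).2} ∅ : ℝ) <
      (bsN j {(wp j).1, (wp j).2} ∅ : ℝ) * (bsN j ∅ ∅ : ℝ) := by exact_mod_cast h6
  linarith

end Pool.Agent.H59.Ray
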