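import Pool.Agent.H59.Ray.Col

/-!
# Extension tables (MP_934449_co): definitions and soundness

A vector is coded by a number `< 256` (digits `0`, `1`, `2 = w`, `3 = w + 1` in base `4`).  A row of
a table is the number `p + 2^8 a + 2^16 b + 2^24 c + 2^32 d + 2^40 j + 2^48 f`: the semilinear map
with the columns `a`, `b`, `c`, `d` (after the Frobenius map if `f = 1`) takes the set `S` and the
point `p` into the `j`-th list of `T`.
-/

set_option autoImplicit false

namespace Pool.Agent.H59.Ray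

/-- decoding a digit -/
def dg (n : ℕ) : F4 :=
  match n % 4 with
  | 0 => .z
  | 1 => .o
  | 2 => .w
  | _ => .v

/-- decoding a vector -/
def dc (n : ℕ) : T4 := (dg n, dg (n / 4), dg (n / 16), dg (n / 64))

/-- the number of a digit -/
def ng : F4 → ℕ
  | .z => 0
  | .o => 1
  | .w => 2
  | .v => 3

/-- the code of a vector -/
def en (x : T4) : ℕ := ng x.1 + 4 * ng x.2.1 + 16 * ng x.2.2.1 + 64 * ng x.2.2.2

theorem dc_en : ∀ x : T4, dc (en x) = x := by decide +kernel

/-- the codes of the 85 points -/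
def pts : List ℕ :=
  (List.range 256).filter fun n => (en (nm (dc n)) == n) && (n != 0)

theorem mem_pts : ∀ x : T4, nm x = x → x ≠ 0 → en x ∈ pts := by decide +kernel

/-- the map of a row -/
def rmap (r : ℕ) (x : T4) : T4 :=
  nm (lin (dc (r / 2 ^ 8)) (dc (r / 2 ^ 16)) (dc (r / 2 ^ 24)) (dc (r / 2 ^ 32))
    (if r / 2 ^ 48 = 1 then fv x else x))

/-- the check of a row -/
def rowOK (S : List ℕ) (T : List (List ℕ)) (r : ℕ) : Bool :=
  (det4 (dc (r / 2 ^ 8)) (dc (r / 2 ^ 16)) (dc (r / 2 ^ 24)) (dc (r / 2 ^ 32)) != F4.z) &&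
    (((r % 256) :: S).all fun x => (T.getD (r / 2 ^ 40 % 256) []).contains (en (rmap r (dc x))))

/-- the check of the table of one set -/
def tabOK (S : List ℕ) (T : List (List ℕ)) (rows : List ℕ) : Bool :=
  pts.all fun p => S.contains p || rows.any fun r => (r % 256 == p) && rowOK S T r

theorem col_rmap {r : ℕ}
    (h : det4 (dc (r / 2 ^ 8)) (dc (r / 2 ^ 16)) (dc (r / 2 ^ 24)) (dc (r / 2 ^ 32)) ≠ 0) :
    Col (rmap r) := by
  unfold rmap
  by_cases hf : r / 2 ^ 48 = 1
  · simp only [hf, if_true]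
    exact (col_fv.comp (col_lin h)).comp col_nm
  · simp only [hf, if_false]
    exact (col_lin h).comp col_nm

theorem nm_rmap (r : ℕ) (x : T4) : nm (rmap r x) = rmap r x := nm_nm _

/-- soundness of the check of a table -/
theorem tab_sound {S : List ℕ} {T : List (List ℕ)} {rows : List ℕ} (h : tabOK S T rows = true)
    {q : T4} (hq : nm q = q) (hq0 : q ≠ 0) (hqS : q ∉ S.map dc) :
    ∃ ψ : T4 → T4, Col ψ ∧ (∀ x, nm (ψ x) = ψ x) ∧ ∃ R ∈ T, ∀ x ∈ q :: S.map dc,
      ψ x ∈ R.map dc := by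
  unfold tabOK at h
  rw [List.all_eq_true] at h
  have h1 := h (en q) (mem_pts q hq hq0)
  rw [Bool.or_eq_true, List.any_eq_true] at h1
  rcases h1 with h1 | ⟨r, -, h1⟩
  · exfalso
    rw [List.contains_iff_mem] at h1
    exact hqS (List.mem_map.2 ⟨en q, h1, dc_en q⟩)
  · rw [Bool.and_eq_true, beq_iff_eq] at h1
    obtain ⟨hrp, h2⟩ := h1
    unfold rowOK at h2
    rw [Bool.and_eq_true, bne_iff_ne, List.all_eq_true] at h2
    obtain ⟨h3, h4⟩ := h2
    rw [hrp] at h4
    have h5 : ∀ x ∈ en q :: S, en (rmap r (dc x)) ∈ T.getD (r / 2 ^ 40 % 256) [] := by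
      intro x hx
      have := h4 x hx
      rwa [List.contains_iff_mem] at this
    have h6 : T.getD (r / 2 ^ 40 % 256) [] ∈ T := by
      have h7 := h5 (en q) List.mem_cons_self
      by_contra hcon
      rw [List.getD_eq_getElem?_getD] at h7 hcon
      rcases hT : T[r / 2 ^ 40 % 256]? with _ | R
      · rw [hT] at h7
        simp at h7
      · rw [hT] at hcon
        exact hcon (List.mem_of_getElem? hT)
    refine ⟨rmap r, col_rmap h3, nm_rmap r, _, h6, ?_⟩
    intro x hx
    have h8 : ∃ n ∈ en q :: S, dc n = x := by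
      rcases List.mem_cons.1 hx with rfl | hx
      · exact ⟨en x, List.mem_cons_self, dc_en x⟩
      · obtain ⟨n, hn, rfl⟩ := List.mem_map.1 hx
        exact ⟨n, List.mem_cons_of_mem _ hn, rfl⟩
    obtain ⟨n, hn, rfl⟩ := h8
    exact List.mem_map.2 ⟨_, h5 n hn, dc_en _⟩

end Pool.Agent.H59.Ray
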