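import Pool.Agent.H59.Ray.F4

/-!
# Vectors over the field with four elements, determinants, normalisation (MP_934449_co)
-/

set_option autoImplicit false

namespace Pool.Agent.H59.Ray

/-- vectors -/
abbrev T4 : Type := F4 × F4 × F4 × F4

/-- the 2 × 2 determinant -/
def d2 (a b c d : F4) : F4 := F4.add (F4.mul a d) (F4.mul b c)

/-- the determinant of four vectors -/
def det4 (a b c d : T4) : F4 :=
  F4.add (F4.add (F4.add (F4.mul (d2 a.1 a.2.1 b.1 b.2.1) (d2 c.2.2.1 c.2.2.2 d.2.2.1 d.2.2.2))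
    (F4.mul (d2 a.1 a.2.2.1 b.1 b.2.2.1) (d2 c.2.1 c.2.2.2 d.2.1 d.2.2.2)))
    (F4.add (F4.mul (d2 a.1 a.2.2.2 b.1 b.2.2.2) (d2 c.2.1 c.2.2.1 d.2.1 d.2.2.1))
    (F4.mul (d2 a.2.1 a.2.2.1 b.2.1 b.2.2.1) (d2 c.1 c.2.2.2 d.1 d.2.2.2))))
    (F4.add (F4.mul (d2 a.2.1 a.2.2.2 b.2.1 b.2.2.2) (d2 c.1 c.2.2.1 d.1 d.2.2.1))
    (F4.mul (d2 a.2.2.1 a.2.2.2 b.2.2.1 b.2.2.2) (d2 c.1 c.2.1 d.1 d.2.1)))

/-- the coordinates as a function -/
def coe : T4 ≃ₗ[F4] (Fin 4 → F4) where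
  toFun x := ![x.1, x.2.1, x.2.2.1, x.2.2.2]
  invFun y := (y 0, y 1, y 2, y 3)
  left_inv := fun x => rfl
  right_inv := fun y => by
    funext i
    fin_cases i <;> rfl
  map_add' := fun x y => by
    funext i
    fin_cases i <;> rfl
  map_smul' := fun c x => by
    funext i
    fin_cases i <;> rfl

theorem add_eq (a b : F4) : F4.add a b = a + b := rfl

theorem mul_eq (a b : F4) : F4.mul a b = a * b := rfl

theorem coe_0 (a : T4) : coe a 0 = a.1 := rfl

theorem coe_1 (a : T4) : coe a 1 = a.2.1 := rfl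

theorem coe_2 (a : T4) : coe a 2 = a.2.2.1 := rfl

theorem coe_3 (a : T4) : coe a 3 = a.2.2.2 := rfl

theorem det4_eq (a b c d : T4) :
    det4 a b c d = (Matrix.of ![coe a, coe b, coe c, coe d]).det := by
  have hn : (-1 : F4) = 1 := by decide
  unfold det4 d2
  simp only [add_eq, mul_eq]
  rw [Matrix.det_succ_row_zero]
  simp only [Fin.sum_univ_succ, Matrix.det_fin_three]
  simp [Fin.succAbove, hn, coe_0, coe_1, coe_2, coe_3]
  simp only [sub_eq_add_neg, F4.neg_eq]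
  ring

/-- four vectors are independent iff the determinant is not zero -/
theorem li_iff (x : Fin 4 → T4) :
    LinearIndependent F4 x ↔ det4 (x 0) (x 1) (x 2) (x 3) ≠ 0 := by
  rw [det4_eq]
  have h1 : LinearIndependent F4 (coe ∘ x) ↔ LinearIndependent F4 x :=
    LinearMap.linearIndependent_iff (coe : T4 →ₗ[F4] (Fin 4 → F4)) (LinearEquiv.ker coe)
  rw [← h1]
  have h2 : (coe ∘ x : Fin 4 → Fin 4 → F4) =
      (Matrix.of ![coe (x 0), coe (x 1), coe (x 2), coe (x 3)]).row := by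
    funext i
    fin_cases i <;> rfl
  rw [h2, Matrix.linearIndependent_rows_iff_isUnit, Matrix.isUnit_iff_isUnit_det,
    isUnit_iff_ne_zero]

end Pool.Agent.H59.Ray
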